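import Mathlib

/-! The point-finite choice of auxiliary edge sets. -/

namespace Pool.Agent.P.MP_b43b3b_co

universe u

open Cardinal Ordinal Set

theorem card_biUnion_le {α β : Type u} {S : Set α} {f : α → Set β} {ν : Cardinal.{u}}
    (hν : ℵ₀ ≤ ν) (hS : #S ≤ ν) (hf : ∀ a ∈ S, #(f a) ≤ ν) : #(⋃ a ∈ S, f a) ≤ ν :=
  (mk_biUnion_le f S).trans (mul_le_of_le hν hS (ciSup_le' fun a => hf a.1 a.2))

theorem card_union_le {α : Type u} {S T : Set α} {ν : Cardinal.{u}}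
    (hν : ℵ₀ ≤ ν) (hS : #S ≤ ν) (hT : #T ≤ ν) : #(S ∪ T : Set α) ≤ ν :=
  (mk_union_le S T).trans (add_le_of_le hν hS hT)

theorem card_of_countable {α : Type u} {S : Set α} {ν : Cardinal.{u}} (hν : ℵ₀ ≤ ν)
    (hS : S.Countable) : #S ≤ ν := (le_aleph0_iff_set_countable.2 hS).trans hν

theorem card_closure {α : Type u} {S : Set α} {r : α → α → Prop} {ν : Cardinal.{u}}
    (hν : ℵ₀ ≤ ν) (hS : #S ≤ ν) (hr : ∀ a, #{b | r a b} ≤ ν) :
    #{b | ∃ a ∈ S, Relation.ReflTransGen r a b} ≤ ν := by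
  let Y : ℕ → Set α := fun n => Nat.rec S (fun _ T => ⋃ a ∈ T, {b | r a b}) n
  have hY : ∀ n, #(↥(Y n)) ≤ ν := by
    intro n
    induction n with
    | zero => exact hS
    | succ n ih => exact card_biUnion_le hν ih fun a _ => hr a
  have hsub : {b | ∃ a ∈ S, Relation.ReflTransGen r a b} ⊆
      ⋃ n ∈ (univ : Set (ULift.{u} ℕ)), Y n.down := by
    rintro b ⟨a, ha, h⟩
    have : ∃ n, b ∈ Y n := by
      induction h with
      | refl => exact ⟨0, ha⟩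
      | tail _ h ih =>
        obtain ⟨n, hn⟩ := ih
        exact ⟨n + 1, mem_biUnion hn h⟩
    obtain ⟨n, hn⟩ := this
    exact mem_biUnion (mem_univ (ULift.up n)) hn
  exact (mk_le_mk_of_subset hsub).trans
    (card_biUnion_le hν (card_of_countable hν countable_univ) fun n _ => hY _)

theorem exists_ord_inj {α : Type u} (S : Set α) :
    ∃ o : α → Ordinal.{u}, InjOn o S ∧ ∀ a ∈ S, o a < (#S).ord := by
  classical
  obtain ⟨r, wo, h⟩ := exists_ord_eq S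
  refine ⟨fun a => if ha : a ∈ S then typein r ⟨a, ha⟩ else 0, ?_, ?_⟩
  · intro a ha b hb e
    simp only [dif_pos ha, dif_pos hb] at e
    exact congrArg Subtype.val (typein_injective r e)
  · intro a ha
    simp only [dif_pos ha]
    rw [h]; exact typein_lt_type r _

theorem card_le_of_injOn {α : Type u} {S : Set α} {o : α → Ordinal.{u}} {β : Ordinal.{u}}
    (h : InjOn o S) (hb : ∀ a ∈ S, o a < β) : #S ≤ β.card := by
  rw [← mk_toType]
  refine mk_le_of_injective (f := fun a : S => ToType.mk (⟨o a, hb a a.2⟩ : Iio β)) ?_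
  intro a b e
  exact Subtype.ext (h a.2 b.2 (congrArg Subtype.val (ToType.mk.injective e)))

theorem exists_rec {α β : Type*} [Nonempty β] {r : α → α → Prop} (wf : WellFounded r)
    (Q : α → (α → β) → β → Prop)
    (hdep : ∀ a f g b, (∀ x, r x a → f x = g x) → Q a f b → Q a g b)
    (hex : ∀ a f, ∃ b, Q a f b) : ∃ F : α → β, ∀ a, Q a F (F a) := by
  classical
  let G : ∀ a, (∀ x, r x a → β) → β := fun a rec =>
    (hex a (fun x => if h : r x a then rec x h else Classical.arbitrary β)).choose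
  refine ⟨wf.fix G, fun a => ?_⟩
  rw [wf.fix_eq]
  refine hdep a _ _ _ ?_ (hex a _).choose_spec
  intro x hx
  simp [hx]

/-- The abstract data of the assignment problem. -/
structure Sys (V I P : Type u) where
  vert : I → Set V
  pc : I → P
  W : P → Set (Sym2 V)
  Good : I → Set (Sym2 V) → Prop
  nb : I → V → V
  hvf : ∀ i, (vert i).Finite
  hne : ∀ i, (vert i).Nonempty
  hpc : ∀ p, {i | pc i = p}.Countable
  hW : ∀ e p q, e ∈ W p → e ∈ W q → p = q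
  hlf : ∀ Z : Set V, Z.Finite → {i | vert i ⊆ Z}.Finite
  hfan : ∀ i, ∀ s ∈ vert i, ∃ A : Set (Sym2 V), A.Finite ∧ Good i A ∧
    ∀ e ∈ A, s ∈ e ∧ ∀ x ∈ e, x ∈ vert i
  hnb : ∀ k, ∀ u ∈ vert k, nb k u ∈ vert k
  hnbf : ∀ u x, {k | u ∈ vert k ∧ nb k u = x}.Finite
  hhelp : ∀ i k u, u ∈ vert i → u ∈ vert k → pc k ≠ pc i → nb k u ∉ vert i →
    ∃ A : Set (Sym2 V), A.Finite ∧ Good i A ∧ ∀ e ∈ A, nb k u ∈ e ∨ e ∈ W (pc k)

namespace Sys

variable {V I P : Type u} (S : Sys V I P)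

/-- A good assignment on the family `N`. -/
def Sol (N : Set I) (A : I → Set (Sym2 V)) : Prop :=
  (∀ i ∈ N, (A i).Finite ∧ S.Good i (A i) ∧
    ∀ e ∈ A i, (∃ x ∈ e, ∃ k ∈ N, x ∈ S.vert k) ∨ ∃ k ∈ N, e ∈ S.W (S.pc k)) ∧
  ∀ e, {i | i ∈ N ∧ e ∈ A i}.Finite

theorem sol_countable {N : Set I} (hN : N.Countable) : ∃ A, S.Sol N A := by
  have hc : (⋃ i ∈ N, S.vert i).Countable := hN.biUnion fun i _ => (S.hvf i).countable
  obtain ⟨ν, hν⟩ := countable_iff_exists_injOn.1 hc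
  have h1 : ∀ i, ∃ s ∈ S.vert i, ∀ x ∈ S.vert i, ν x ≤ ν s := fun i =>
    Set.exists_max_image _ ν (S.hvf i) (S.hne i)
  choose s hs hmax using h1
  choose A hA using fun i => S.hfan i (s i) (hs i)
  refine ⟨A, fun i hi => ⟨(hA i).1, (hA i).2.1, fun e he =>
    Or.inl ⟨s i, ((hA i).2.2 e he).1, i, hi, hs i⟩⟩, fun e => ?_⟩
  induction e using Sym2.ind with
  | h a b =>
    have hZ : {x | x ∈ ⋃ i ∈ N, S.vert i ∧ ν x ≤ max (ν a) (ν b)}.Finite := by
      refine Set.Finite.of_finite_image (f := ν) ((finite_Iic (max (ν a) (ν b))).subset ?_)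
        (hν.mono fun x hx => ?_)
      · rintro _ ⟨x, hx, rfl⟩; exact hx.2
      · exact hx.1
    refine (S.hlf _ hZ).subset ?_
    rintro i ⟨hi, he⟩ x hx
    refine ⟨mem_biUnion hi hx, (hmax i x hx).trans ?_⟩
    rcases Sym2.mem_iff.1 ((hA i).2.2 _ he).1 with h | h <;> rw [h] <;> simp

/-- Stages for an uncountable family. -/
theorem exists_stage {N : Set I} (hN : ℵ₀ < #N) :
    ∃ (σ : I → Ordinal.{u}) (ν : Ordinal.{u} → Cardinal.{u}),
      (∀ α, ℵ₀ ≤ ν α) ∧ (∀ t ∈ N, ν (σ t) < #N) ∧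
      (∀ α, #{t | t ∈ N ∧ σ t ≤ α} ≤ ν α) ∧
      (∀ t ∈ N, ∀ t' ∈ N, S.pc t = S.pc t' → σ t = σ t') ∧
      (∀ t ∈ N, ∀ t' ∈ N, ∀ x, x ∈ S.vert t → x ∈ S.vert t' → σ t' < σ t →
        ν (σ t) < #{k | k ∈ N ∧ x ∈ S.vert k}) := by
  obtain ⟨o, ho, holt⟩ := exists_ord_inj N
  choose idx hidx hlt using fun x : V => exists_ord_inj {k | k ∈ N ∧ x ∈ S.vert k}
  let β : Ordinal.{u} → Ordinal.{u} := fun α => max (α + 1) ω
  have hβ : ∀ α, ℵ₀ ≤ (β α).card := fun α => card_omega0 ▸ card_le_card (le_max_right _ _)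
  have βmono : ∀ α γ, α ≤ γ → β α ≤ β γ := fun α γ h => max_le_max (by gcongr) le_rfl
  let R : Ordinal.{u} → I → I → Prop := fun α t t' =>
    t' ∈ N ∧ (S.pc t' = S.pc t ∨ ∃ x ∈ S.vert t, x ∈ S.vert t' ∧ idx x t' < β α)
  let X : Ordinal.{u} → Set I := fun α =>
    {t' | ∃ t ∈ {t | t ∈ N ∧ o t < β α}, Relation.ReflTransGen (R α) t t'}
  have Xcard : ∀ α, #(X α) ≤ (β α).card := by
    intro α
    refine card_closure (hβ α) (card_le_of_injOn (ho.mono fun t ht => ht.1) fun t ht => ht.2) ?_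
    intro t
    have : {b | R α t b} ⊆ {i | S.pc i = S.pc t} ∪
        ⋃ x ∈ S.vert t, {k | (k ∈ N ∧ x ∈ S.vert k) ∧ idx x k < β α} := by
      rintro b ⟨hb, h | ⟨x, hx, hx', h⟩⟩
      · exact Or.inl h
      · exact Or.inr (mem_biUnion hx ⟨⟨hb, hx'⟩, h⟩)
    refine (mk_le_mk_of_subset this).trans (card_union_le (hβ α)
      (card_of_countable (hβ α) (S.hpc _))
      (card_biUnion_le (hβ α) (card_of_countable (hβ α) (S.hvf t).countable) fun x _ => ?_))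
    exact card_le_of_injOn ((hidx x).mono fun t ht => ht.1) fun t ht => ht.2
  have Xmono : ∀ α γ, α ≤ γ → X α ⊆ X γ := by
    rintro α γ h t' ⟨t, ht, k⟩
    refine ⟨t, ⟨ht.1, ht.2.trans_le (βmono _ _ h)⟩, Relation.ReflTransGen.mono ?_ _ _ k⟩
    rintro a b ⟨hb, k | ⟨x, hx, hx', k⟩⟩
    · exact ⟨hb, Or.inl k⟩
    · exact ⟨hb, Or.inr ⟨x, hx, hx', k.trans_le (βmono _ _ h)⟩⟩
  have Xstep : ∀ α t t', t ∈ X α → R α t t' → t' ∈ X α := by
    rintro α t t' ⟨a, ha, k⟩ h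
    exact ⟨a, ha, k.tail h⟩
  have Xo : ∀ t ∈ N, t ∈ X (o t) := fun t ht =>
    ⟨t, ⟨ht, (lt_add_one _).trans_le (le_max_left _ _)⟩, Relation.ReflTransGen.refl⟩
  let σ : I → Ordinal.{u} := fun t => sInf {α | t ∈ X α}
  have σmem : ∀ t ∈ N, t ∈ X (σ t) := fun t ht => csInf_mem (s := {α | t ∈ X α}) ⟨_, Xo t ht⟩
  have σle : ∀ t α, t ∈ X α → σ t ≤ α := fun t α h => csInf_le' (s := {α | t ∈ X α}) h
  have βlt : ∀ (α : Ordinal.{u}) (c : Cardinal.{u}), ω < c.ord → α < c.ord → (β α).card < c := by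
    intro α c h1 h2
    rw [← lt_ord]
    exact max_lt ((isSuccLimit_ord (omega0_le_ord.1 h1.le)).add_one_lt h2) h1
  refine ⟨σ, fun α => (β α).card, hβ, fun t ht => ?_, fun α => ?_, ?_, ?_⟩
  · exact βlt _ _ (omega0_lt_ord.2 hN) ((σle t _ (Xo t ht)).trans_lt (holt t ht))
  · refine (mk_le_mk_of_subset ?_).trans (Xcard α)
    rintro t ⟨ht, h⟩
    exact Xmono _ _ h (σmem t ht)
  · intro t ht t' ht' h
    exact le_antisymm (σle _ _ (Xstep _ _ _ (σmem t' ht') ⟨ht, Or.inl h⟩))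
      (σle _ _ (Xstep _ _ _ (σmem t ht) ⟨ht', Or.inl h.symm⟩))
  · intro t ht t' ht' x hx hx' h
    have key : ∀ γ, σ t' ≤ γ → γ < σ t → β γ ≤ idx x t := by
      intro γ h1 h2
      by_contra hc
      exact (σle _ _ (Xstep γ t' t (Xmono _ _ h1 (σmem t' ht'))
        ⟨ht, Or.inr ⟨x, hx', hx, not_le.1 hc⟩⟩)).not_gt h2
    have h1 : ω ≤ idx x t := (le_max_right _ _).trans (key _ le_rfl h)
    have h2 : σ t ≤ idx x t := by
      by_contra hc
      have := key (max (idx x t) (σ t')) (le_max_right _ _) (max_lt (not_le.1 hc) h)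
      exact ((lt_add_one _).trans_le ((le_max_left _ _).trans this)).not_ge (le_max_left _ _)
    have h3 := hlt x t ⟨ht, hx⟩
    exact βlt _ _ (h1.trans_lt h3) (h2.trans_lt h3)

/-- The anchored terms: a fresh vertex and a fresh piece for each. -/
theorem sol_anchored {N M : Set I} (key : I → Ordinal.{u} ×ₗ Ordinal.{u})
    (hkey : InjOn key M)
    (h : ∀ t ∈ M, ∃ ν : Cardinal.{u}, ℵ₀ ≤ ν ∧ #{t' | t' ∈ M ∧ key t' < key t} ≤ ν ∧
      ∃ x ∈ S.vert t, ν < #{k | k ∈ N ∧ x ∈ S.vert k}) :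
    ∃ A : I → Set (Sym2 V), (∀ i ∈ M, (A i).Finite ∧ S.Good i (A i) ∧
      ∀ e ∈ A i, (∃ x ∈ e, ∃ k ∈ N, x ∈ S.vert k) ∨ ∃ k ∈ N, e ∈ S.W (S.pc k)) ∧
      ∀ e, {i | i ∈ M ∧ e ∈ A i}.Finite := by
  rcases M.eq_empty_or_nonempty with rfl | ⟨t0, -⟩
  · exact ⟨fun _ => ∅, by simp, by simp⟩
  have : Nonempty (Set (Sym2 V) × I) := ⟨(∅, t0)⟩
  let Q : I → (I → Set (Sym2 V) × I) → Set (Sym2 V) × I → Prop := fun t f b =>
    t ∈ M → b.2 ∈ N ∧ b.1.Finite ∧ S.Good t b.1 ∧ ∃ s ∈ S.vert b.2,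
      (∀ e ∈ b.1, s ∈ e ∨ e ∈ S.W (S.pc b.2)) ∧
      ∀ t' ∈ M, key t' < key t → (f t').1.Finite →
        S.pc (f t').2 ≠ S.pc b.2 ∧ ∀ e ∈ (f t').1, s ∉ e
  obtain ⟨F, hF⟩ := exists_rec (InvImage.wf key wellFounded_lt) Q (by
    intro a f g b hfg hQ ha
    obtain ⟨h1, h2, h3, s, hs, h4, h5⟩ := hQ ha
    refine ⟨h1, h2, h3, s, hs, h4, fun t' ht' hlt => ?_⟩
    rw [← hfg t' hlt]
    exact h5 t' ht' hlt) (by
    intro t f
    by_cases ht : t ∈ M
    swap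
    · exact ⟨(∅, t0), fun h => (ht h).elim⟩
    obtain ⟨ν, hν, hp, x, hx, hd⟩ := h t ht
    let Pr : Set I := {t' | (t' ∈ M ∧ key t' < key t) ∧ (f t').1.Finite}
    have hPr : #Pr ≤ ν := (mk_le_mk_of_subset fun t' h => h.1).trans hp
    let U : Set V := S.vert t ∪ ⋃ t' ∈ Pr, ⋃ e ∈ (f t').1, {y | y ∈ e}
    have hU : #U ≤ ν := by
      refine card_union_le hν (card_of_countable hν (S.hvf t).countable)
        (card_biUnion_le hν hPr fun t' h => card_biUnion_le hν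
          (card_of_countable hν h.2.countable) fun e _ => card_of_countable hν ?_)
      induction e using Sym2.ind with
      | h a b => exact ((toFinite {a, b}).subset fun y hy => Sym2.mem_iff.1 hy).countable
    let Bad : Set I := ({k | S.pc k = S.pc t} ∪ ⋃ t' ∈ Pr, {k | S.pc k = S.pc (f t').2}) ∪
      ⋃ y ∈ U, {k | x ∈ S.vert k ∧ S.nb k x = y}
    have hBad : #Bad ≤ ν :=
      card_union_le hν (card_union_le hν (card_of_countable hν (S.hpc _))
        (card_biUnion_le hν hPr fun t' _ => card_of_countable hν (S.hpc _)))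
        (card_biUnion_le hν hU fun y _ => card_of_countable hν (S.hnbf x y).countable)
    obtain ⟨k, hk, hkB⟩ : ∃ k ∈ {k | k ∈ N ∧ x ∈ S.vert k}, k ∉ Bad := by
      by_contra hc
      push Not at hc
      exact (hBad.trans_lt hd).not_ge (mk_le_mk_of_subset hc)
    have hsU : S.nb k x ∉ U := fun h => hkB (Or.inr (mem_biUnion h ⟨hk.2, rfl⟩))
    obtain ⟨A, hA1, hA2, hA3⟩ := S.hhelp t k x hx hk.2 (fun h => hkB (Or.inl (Or.inl h)))
      fun h => hsU (Or.inl h)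
    refine ⟨(A, k), fun _ => ⟨hk.1, hA1, hA2, S.nb k x, S.hnb k x hk.2, hA3, ?_⟩⟩
    intro t' ht' hlt hfin
    have hm : t' ∈ Pr := ⟨⟨ht', hlt⟩, hfin⟩
    exact ⟨fun h => hkB (Or.inl (Or.inr (mem_biUnion hm h.symm))),
      fun e he h => hsU (Or.inr (mem_biUnion hm (mem_biUnion he h)))⟩)
  refine ⟨fun t => (F t).1, fun i hi => ?_, fun e => ?_⟩
  · obtain ⟨h1, h2, h3, s, hs, h4, -⟩ := hF i hi
    refine ⟨h2, h3, fun e he => ?_⟩
    rcases h4 e he with h | h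
    · exact Or.inl ⟨s, h, _, h1, hs⟩
    · exact Or.inr ⟨_, h1, h⟩
  · have step : ∀ t ∈ M, ∀ t' ∈ M, key t' < key t → e ∈ (F t).1 → e ∈ (F t').1 →
        e ∈ S.W (S.pc (F t).2) ∧ S.pc (F t').2 ≠ S.pc (F t).2 := by
      intro t ht t' ht' hlt he he'
      obtain ⟨-, -, -, s, -, h4, h5⟩ := hF t ht
      have := h5 t' ht' hlt (hF t' ht').2.1
      exact ⟨(h4 e he).resolve_left (this.2 e he'), this.1⟩
    rcases {i | i ∈ M ∧ e ∈ (F i).1}.eq_empty_or_nonempty with h0 | h0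
    · rw [h0]; exact finite_empty
    obtain ⟨m, hm, hmin⟩ := (InvImage.wf key wellFounded_lt).has_min _ h0
    have hsub : ({i | i ∈ M ∧ e ∈ (F i).1} \ {m}).Subsingleton := by
      rintro a ⟨ha, ham⟩ b ⟨hb, hbm⟩
      have lt : ∀ c, c ∈ M → e ∈ (F c).1 → c ≠ m → key m < key c := fun c h1 h2 h3 =>
        lt_of_le_of_ne (not_lt.1 (hmin c ⟨h1, h2⟩)) fun h => h3 (hkey hm.1 h1 h).symm
      have wa := (step a ha.1 m hm.1 (lt a ha.1 ha.2 ham) ha.2 hm.2).1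
      have wb := (step b hb.1 m hm.1 (lt b hb.1 hb.2 hbm) hb.2 hm.2).1
      have := S.hW _ _ _ wa wb
      rcases lt_trichotomy (key a) (key b) with h | h | h
      · exact ((step b hb.1 a ha.1 h hb.2 ha.2).2 this).elim
      · exact hkey ha.1 hb.1 h
      · exact ((step a ha.1 b hb.1 h ha.2 hb.2).2 this.symm).elim
    exact (hsub.finite.insert m).subset fun i hi => by
      by_cases h : i = m
      · exact Or.inl h
      · exact Or.inr ⟨hi, h⟩

theorem sol (N : Set I) : ∃ A, S.Sol N A := by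
  classical
  induction hκ : #N using WellFoundedLT.induction generalizing N with
  | ind κ ih =>
  subst hκ
  rcases le_or_gt #N ℵ₀ with hN | hN
  · exact S.sol_countable (le_aleph0_iff_set_countable.1 hN)
  obtain ⟨σ, ν, hν, hνN, hcard, hpc, hdeg⟩ := S.exists_stage hN
  obtain ⟨o, ho, -⟩ := exists_ord_inj N
  let M : Set I := {t | t ∈ N ∧ ∃ t' ∈ N, ∃ x ∈ S.vert t, x ∈ S.vert t' ∧ σ t' < σ t}
  obtain ⟨A, hA, hAf⟩ := S.sol_anchored (N := N) (M := M) (fun t => toLex (σ t, o t))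
    (fun a ha b hb e => ho ha.1 hb.1 (congrArg (fun p => (ofLex p).2) e)) (by
      rintro t ⟨ht, t', ht', x, hx, hx', hlt⟩
      refine ⟨ν (σ t), hν _, (mk_le_mk_of_subset ?_).trans (hcard (σ t)), x, hx,
        hdeg t ht t' ht' x hx hx' hlt⟩
      rintro k ⟨hk, h⟩
      refine ⟨hk.1, ?_⟩
      rcases Prod.Lex.toLex_lt_toLex.1 h with h | h
      · exact h.le
      · exact h.1.le)
  let K : Ordinal.{u} → Set I := fun α => {t | (t ∈ N ∧ t ∉ M) ∧ σ t = α}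
  have hK : ∀ α, ∃ A, S.Sol (K α) A := by
    intro α
    rcases (K α).eq_empty_or_nonempty with h | ⟨t, ht⟩
    · rw [h]; exact S.sol_countable countable_empty
    refine ih _ ?_ _ rfl
    refine lt_of_le_of_lt ((mk_le_mk_of_subset ?_).trans (hcard (σ t))) (hνN t ht.1.1)
    exact fun k hk => ⟨hk.1.1, (hk.2.trans ht.2.symm).le⟩
  choose B hB using hK
  refine ⟨fun t => if t ∈ M then A t else B (σ t) t, fun i hi => ?_, fun e => ?_⟩
  · by_cases hM : i ∈ M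
    · simp only [if_pos hM]; exact hA i hM
    · simp only [if_neg hM]
      obtain ⟨h1, h2, h3⟩ := (hB (σ i)).1 i ⟨⟨hi, hM⟩, rfl⟩
      refine ⟨h1, h2, fun e he => ?_⟩
      rcases h3 e he with ⟨x, hx, k, hk, h⟩ | ⟨k, hk, h⟩
      · exact Or.inl ⟨x, hx, k, hk.1.1, h⟩
      · exact Or.inr ⟨k, hk.1.1, h⟩
  · have s1 : ∀ x, {α | ∃ k ∈ K α, x ∈ S.vert k}.Subsingleton := by
      rintro x α ⟨k, hk, hx⟩ γ ⟨l, hl, hy⟩
      rw [← hk.2, ← hl.2]
      rcases lt_trichotomy (σ k) (σ l) with h | h | h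
      · exact (hl.1.2 ⟨hl.1.1, k, hk.1.1, x, hy, hx, h⟩).elim
      · exact h
      · exact (hk.1.2 ⟨hk.1.1, l, hl.1.1, x, hx, hy, h⟩).elim
    have s2 : {α | ∃ k ∈ K α, e ∈ S.W (S.pc k)}.Subsingleton := by
      rintro α ⟨k, hk, hx⟩ γ ⟨l, hl, hy⟩
      rw [← hk.2, ← hl.2]
      exact hpc k hk.1.1 l hl.1.1 (S.hW _ _ _ hx hy)
    have ef : {y | y ∈ e}.Finite := by
      induction e using Sym2.ind with
      | h a b => exact (toFinite {a, b}).subset fun y hy => Sym2.mem_iff.1 hy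
    have hfin := (ef.biUnion fun x _ => (s1 x).finite).union s2.finite
    refine ((hAf e).union (hfin.biUnion fun α _ => (hB α).2 e)).subset ?_
    rintro i ⟨hi, he⟩
    by_cases hM : i ∈ M
    · simp only [if_pos hM] at he; exact Or.inl ⟨hM, he⟩
    · simp only [if_neg hM] at he
      have hiK : i ∈ K (σ i) := ⟨⟨hi, hM⟩, rfl⟩
      refine Or.inr (mem_biUnion (x := σ i) ?_ ⟨hiK, he⟩)
      rcases ((hB (σ i)).1 i hiK).2.2 e he with ⟨x, hx, h⟩ | h
      · exact Or.inl (mem_biUnion hx h)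
      · exact Or.inr h

end Sys

end Pool.Agent.P.MP_b43b3b_co
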