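import Mathlib

/-! Tournaments, directed cycles, reversal sequences. -/

namespace Pool.Agent.P.MP_b43b3b_co

universe u

/-- A tournament on `V`: no loops, and exactly one of `uv`, `vu` is an arc for `u ≠ v`. -/
def IsTournament {V : Type u} (D : V → V → Prop) : Prop :=
  (∀ u, ¬ D u u) ∧ ∀ u v, u ≠ v → Xor (D u v) (D v u)

/-- `uv` is an arc of the cyclically read list `C`. -/
def Arc {V : Type u} (C : List V) (u v : V) : Prop := (u, v) ∈ C.zip (C.rotate 1)

/-- `C` lists the distinct vertices of a directed cycle of `D` in cyclic order. -/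
def IsDiCycle {V : Type u} (D : V → V → Prop) (C : List V) : Prop :=
  C.Nodup ∧ 3 ≤ C.length ∧ ∀ u v, Arc C u v → D u v

/-- `D^C`: each arc `uv` of `C` is replaced with `vu`. -/
def rev {V : Type u} (D : V → V → Prop) (C : List V) : V → V → Prop :=
  fun u v => (D u v ∧ ¬ Arc C u v) ∨ Arc C v u

/-- `RS D f α E`: the sequence of cycles `(f i)_{i<α}` is a reversal sequence of `D`
and its result is `E`. -/
inductive RS {V : Type u} (D : V → V → Prop) (f : Ordinal.{u} → List V) :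
    Ordinal.{u} → (V → V → Prop) → Prop
  | nil : RS D f 0 D
  | snoc {α : Ordinal.{u}} {E : V → V → Prop} :
      RS D f α E → IsDiCycle E (f α) → RS D f (α + 1) (rev E (f α))
  | lim {ζ α : Ordinal.{u}} {L : Ordinal.{u} → Ordinal.{u}} {Es : Ordinal.{u} → V → V → Prop}
      {E : V → V → Prop} :
      (∀ ξ < ζ, RS D f (L ξ) (Es ξ)) →
      (∀ ξ η, ξ ≤ η → η < ζ → L ξ ≤ L η) →
      (∀ i, i < α ↔ ∃ ξ < ζ, i < L ξ) →
      (∀ u v, {i | i < α ∧ (Arc (f i) u v ∨ Arc (f i) v u)}.Finite) →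
      (∀ u v, ∃ ν < ζ, ∀ ξ, ν ≤ ξ → ξ < ζ → (Es ξ u v ↔ E u v)) →
      RS D f α E

end Pool.Agent.P.MP_b43b3b_co
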