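import Pool.Agent.P.MP_b43b3b_co.Seq
import Pool.Agent.P.MP_b43b3b_co.Assign

/-! Rearranging a reversal sequence and replacing every term by triangles. -/

namespace Pool.Agent.P.MP_b43b3b_co

universe u

open Set Ordinal Relation

variable {V : Type u}

theorem path_reach {R : V → V → Prop} : ∀ (l : List V) (x : V),
    (∀ u v, parc (x :: l) u v → R u v) → ∀ y ∈ x :: l, ReflTransGen R x y
  | [], x, _, y, hy => by rw [List.mem_singleton.1 hy]
  | z :: l, x, h, y, hy => by
    rcases List.mem_cons.1 hy with rfl | hy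
    · rfl
    · exact ReflTransGen.head (h x z (Or.inl ⟨rfl, rfl⟩))
        (path_reach l z (fun u v k => h u v (Or.inr k)) y hy)

theorem cycle_reach {R : V → V → Prop} {C : List V} (h : ∀ u v, Arc C u v → R u v) {x y : V}
    (hx : x ∈ C) (hy : y ∈ C) : ReflTransGen R x y := by
  obtain ⟨l₁, l₂, rfl⟩ := List.append_of_mem hx
  refine path_reach (l₂ ++ l₁ ++ [x]) x (fun u v k => h u v ?_) y ?_
  · rwa [arc_rot, arc_cons]
  · simp at hy ⊢; tauto

theorem exists_arc {C : List V} {x : V} (hx : x ∈ C) : ∃ y, Arc C x y := by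
  obtain ⟨l₁, l₂, rfl⟩ := List.append_of_mem hx
  simp only [arc_rot, arc_cons]
  rcases l₂ ++ l₁ with _ | ⟨z, l⟩
  · exact ⟨x, Or.inl ⟨rfl, rfl⟩⟩
  · exact ⟨z, Or.inl ⟨rfl, rfl⟩⟩

/-- Reachability along arcs whose edges lie in `W`. -/
def Rch (W : Set (Sym2 V)) (B : V → V → Prop) : V → V → Prop :=
  ReflTransGen fun a b => B a b ∧ s(a, b) ∈ W

theorem rch_cycle {W : Set (Sym2 V)} {B : V → V → Prop} {C : List V} (hC : IsDiCycle B C)
    (hW : edges C ⊆ W) {x y : V} (hx : x ∈ C) (hy : y ∈ C) : Rch W B x y :=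
  cycle_reach (fun u v h => ⟨hC.2.2 u v h, hW (mem_edges.2 (Or.inl h))⟩) hx hy

theorem rch_flip {W : Set (Sym2 V)} {B : V → V → Prop} {C : List V} (hC : IsDiCycle B C)
    (hW : edges C ⊆ W) : Rch W (flip B (edges C)) = Rch W B := by
  have h2 : ∀ x ∈ C, ∀ y ∈ C, Rch W (flip B (edges C)) x y := by
    intro x hx y hy
    have := cycle_reach (R := fun u v => flip B (edges C) v u ∧ s(v, u) ∈ W) (fun u v h =>
      ⟨(flip_of_mem (mem_edges.2 (Or.inr h))).2 (hC.2.2 u v h), hW (mem_edges.2 (Or.inr h))⟩)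
      hy hx
    exact ReflTransGen.swap _ _ this
  funext x y
  refine propext ⟨fun h => ?_, fun h => ?_⟩
  · induction h with
    | refl => exact ReflTransGen.refl
    | @tail a b _ k ih =>
      by_cases he : s(a, b) ∈ edges C
      · exact ReflTransGen.trans ih
          (rch_cycle hC hW (edges_mem he (by simp)) (edges_mem he (by simp)))
      · exact ReflTransGen.tail ih ⟨(flip_of_not he).1 k.1, k.2⟩
  · induction h with
    | refl => exact ReflTransGen.refl
    | @tail a b _ k ih =>
      by_cases he : s(a, b) ∈ edges C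
      · exact ReflTransGen.trans ih (h2 _ (edges_mem he (by simp)) _ (edges_mem he (by simp)))
      · exact ReflTransGen.tail ih ⟨(flip_of_not he).2 k.1, k.2⟩

section Reorder

variable {I : Type u} {D : V → V → Prop} {c : I → List V} {r : I → I → Prop}

/-- Two terms share an edge. -/
def Sh (c : I → List V) (j i : I) : Prop := ∃ e, e ∈ edges (c j) ∧ e ∈ edges (c i)

/-- An earlier term sharing an edge. -/
def Dep (c : I → List V) (r : I → I → Prop) (j i : I) : Prop := r j i ∧ Sh c j i

/-- Sets of terms closed under earlier terms sharing an edge. -/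
def DC (c : I → List V) (r : I → I → Prop) (S : Set I) : Prop :=
  ∀ j i, Dep c r j i → i ∈ S → j ∈ S

theorem Sh.symm {j i : I} (h : Sh c j i) : Sh c i j := let ⟨e, h1, h2⟩ := h; ⟨e, h2, h1⟩

theorem sh_finite (hv : Valid D c r) (i : I) : {j | Sh c i j}.Finite :=
  ((edges_finite (c i)).biUnion fun e _ => hv.1 e).subset fun _ ⟨_, h1, h2⟩ => mem_biUnion h1 h2

theorem cyc_of_dc [IsWellOrder I r] (hv : Valid D c r) {S : Set I} (hS : DC c r S) {m : I}
    (hm : m ∉ S) (hp : ∀ j, Dep c r j m → j ∈ S) : IsDiCycle (flip D (oddE c S)) (c m) := by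
  refine ⟨(hv.2 m).1, (hv.2 m).2.1, fun u v h => ?_⟩
  have he : s(u, v) ∈ edges (c m) := mem_edges.2 (Or.inl h)
  refine (flip_congr (oddE_congr fun j hj => ⟨fun k => hp j ⟨k, _, hj, he⟩, fun k => ?_⟩)).1
    ((hv.2 m).2.2 u v h)
  rcases trichotomous_of r j m with a | a | a
  · exact a
  · exact (hm (a ▸ k)).elim
  · exact (hm (hS m j ⟨a, _, he, hj⟩ k)).elim

theorem rch_fin [IsWellOrder I r] (hv : Valid D c r) {W : Set (Sym2 V)} {S' : Set I}
    (hS' : DC c r S') : ∀ (n : ℕ) (S : Set I), DC c r S → S ⊆ S' → (S' \ S).Finite →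
      (S' \ S).ncard = n → (∀ j ∈ S' \ S, edges (c j) ⊆ W) →
      Rch W (flip D (oddE c S)) = Rch W (flip D (oddE c S')) := by
  intro n
  induction n with
  | zero =>
    intro S _ h1 h2 h3 _
    rw [ncard_eq_zero h2, sdiff_eq_empty] at h3
    rw [Subset.antisymm h1 h3]
  | succ n ih =>
    intro S hS h1 h2 h3 h4
    obtain ⟨m, hm, hmin⟩ := (IsWellFounded.wf (r := r)).has_min (S' \ S)
      (nonempty_of_ncard_ne_zero (by omega))
    have hp : ∀ j, Dep c r j m → j ∈ S := fun j hj => by
      by_contra hc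
      exact hmin j ⟨hS' j m hj hm.1, hc⟩ hj.1
    have hcyc := cyc_of_dc hv hS hm.2 hp
    have e : S' \ insert m S = (S' \ S) \ {m} := by
      ext j; simp only [mem_sdiff, mem_insert_iff, mem_singleton_iff]; tauto
    rw [← rch_flip hcyc (h4 m hm), flip_flip,
      ← oddE_insert hm.2 fun e => (hv.1 e).subset fun i hi => hi.2]
    refine ih _ ?_ (insert_subset hm.1 h1) (e ▸ h2.subset sdiff_subset) ?_
      fun j hj => h4 j (e ▸ hj).1
    · rintro j i hji (rfl | hi)
      · exact Or.inr (hp j hji)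
      · exact Or.inr (hS j i hji hi)
    · rw [e, ncard_sdiff_singleton_of_mem hm, h3]; rfl

theorem exists_height [IsWellOrder I r] (hv : Valid D c r) :
    ∃ h : I → ℕ, ∀ j i, Dep c r j i → h j < h i := by
  obtain ⟨F, hF⟩ := exists_rec (IsWellFounded.wf (r := r))
    (fun i (f : I → ℕ) b => ∀ j, Dep c r j i → f j < b)
    (fun a f g b hfg h j hj => hfg j hj.1 ▸ h j hj) (by
      intro i f
      obtain ⟨b, hb⟩ := ((sh_finite hv i).image f).bddAbove
      exact ⟨b + 1, fun j hj => Nat.lt_succ_of_le (hb ⟨j, hj.2.symm, rfl⟩)⟩)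
  exact ⟨F, fun j i => hF i j⟩

theorem anc_finite [IsWellOrder I r] (hv : Valid D c r) (k : I) :
    {j | ReflTransGen (Dep c r) j k}.Finite := by
  induction k using (IsWellFounded.wf (r := r)).induction with
  | _ k ih =>
    have hf : {l | Dep c r l k}.Finite := (sh_finite hv k).subset fun l hl => hl.2.symm
    refine ((hf.biUnion' fun l hl => ih l hl.1).insert k).subset fun j hj => ?_
    rcases ReflTransGen.cases_tail hj with h | ⟨l, h1, h2⟩
    · exact Or.inl h.symm
    · exact Or.inr (mem_iUnion₂.2 ⟨l, h2, h1⟩)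

theorem height_mono {h : I → ℕ} (hh : ∀ j i, Dep c r j i → h j < h i) {j i : I}
    (k : ReflTransGen (Dep c r) j i) : h j ≤ h i := by
  induction k with
  | refl => exact le_rfl
  | tail _ k ih => exact ih.trans (hh _ _ k).le

theorem desc_finite (hv : Valid D c r) {h : I → ℕ} (hh : ∀ j i, Dep c r j i → h j < h i)
    (n : ℕ) : ∀ (d : ℕ) (k : I), n ≤ h k + d →
      {j | ReflTransGen (Dep c r) k j ∧ h j ≤ n}.Finite := by
  intro d
  induction d with
  | zero =>
    intro k hk
    refine (finite_singleton k).subset fun j hj => ?_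
    rcases ReflTransGen.cases_head hj.1 with e | ⟨l, h1, h2⟩
    · exact e.symm
    · have := hh _ _ h1; have := height_mono hh h2; have := hj.2; omega
  | succ d ih =>
    intro k hk
    have hf : {l | Dep c r k l}.Finite := (sh_finite hv k).subset fun l hl => hl.2
    refine ((hf.biUnion' fun l hl => ih l (by have := hh _ _ hl; omega)).insert k).subset
      fun j hj => ?_
    rcases ReflTransGen.cases_head hj.1 with e | ⟨l, h1, h2⟩
    · exact Or.inl e.symm
    · exact Or.inr (mem_iUnion₂.2 ⟨l, h1, h2, hj.2⟩)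

/-- The piece of a term. -/
def piece (c : I → List V) (i : I) : Set I := {k | ReflTransGen (Sh c) i k}

theorem piece_eq {i k : I} (h : ReflTransGen (Sh c) i k) : piece c i = piece c k := by
  have hs : ReflTransGen (Sh c) k i := by
    induction h with
    | refl => exact ReflTransGen.refl
    | tail _ a ih => exact ReflTransGen.head a.symm ih
  ext l
  exact ⟨fun a => hs.trans a, fun a => h.trans a⟩

/-- The edges of a piece. -/
def pW (c : I → List V) (p : Set I) : Set (Sym2 V) := {e | ∃ k, piece c k = p ∧ e ∈ edges (c k)}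

theorem rch_piece [IsWellOrder I r] (hv : Valid D c r) {h : I → ℕ}
    (hh : ∀ j i, Dep c r j i → h j < h i) {S : Set I} (hS : DC c r S) {n : ℕ}
    (hn : ∀ j ∈ S, h j ≤ n) (k : I) {x y : V} (hx : x ∈ c k) (hy : y ∈ c k) :
    Rch (pW c (piece c k)) (flip D (oddE c S)) x y := by
  let S' : Set I := S ∪ {j | ReflTransGen (Dep c r) j k}
  let S'' : Set I := S' \ {j | ReflTransGen (Dep c r) k j}
  have d1 : DC c r S' := by
    rintro j i hji (hi | hi)
    · exact Or.inl (hS j i hji hi)
    · exact Or.inr (ReflTransGen.head hji hi)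
  have d2 : DC c r S'' := fun j i hji hi =>
    ⟨d1 j i hji hi.1, fun hj => hi.2 (ReflTransGen.tail hj hji)⟩
  have toSh : ∀ a b, ReflTransGen (Dep c r) a b → piece c a = piece c b := fun a b hab =>
    piece_eq (ReflTransGen.mono (fun _ _ h => h.2) _ _ hab)
  have f1 : (S' \ S).Finite := (anc_finite hv k).subset fun j hj => hj.1.resolve_left hj.2
  have sub2 : S' \ S'' ⊆ {j | ReflTransGen (Dep c r) k j ∧ h j ≤ n + h k} := by
    rintro j ⟨h1, h2⟩
    refine ⟨by_contra fun hc => h2 ⟨h1, hc⟩, ?_⟩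
    rcases h1 with h1 | h1
    · have := hn j h1; omega
    · have := height_mono hh h1; omega
  have f2 : (S' \ S'').Finite := (desc_finite hv hh (n + h k) n k (by omega)).subset sub2
  rw [rch_fin (W := pW c (piece c k)) hv d1 _ S hS subset_union_left f1 rfl
      (fun j hj e he => ⟨j, toSh _ _ (hj.1.resolve_left hj.2), he⟩),
    ← rch_fin (W := pW c (piece c k)) hv d1 _ S'' d2 sdiff_subset f2 rfl
      (fun j hj e he => ⟨j, (toSh _ _ (sub2 hj).1).symm, he⟩)]
  have hkW : edges (c k) ⊆ pW c (piece c k) := fun e he => ⟨k, rfl, he⟩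
  refine rch_cycle (cyc_of_dc hv d2 (fun hk => hk.2 ReflTransGen.refl) fun j hj =>
    ⟨Or.inr (ReflTransGen.single hj), fun a => ?_⟩) hkW hx hy
  have := height_mono hh a
  have := hh _ _ hj
  omega

theorem TR.finite {A : Set (Sym2 V)} {B : V → V → Prop} {F : Set (Sym2 V)}
    (h : TR (F ∪ A) B F) : ∃ A' : Set (Sym2 V), A'.Finite ∧ TR (F ∪ A') B F ∧ A' ⊆ A := by
  obtain ⟨L, h1, h2, h3⟩ := h
  refine ⟨(⋃ T ∈ {T | T ∈ L}, edges T) \ F,
    (L.finite_toSet.biUnion fun T _ => edges_finite T).subset sdiff_subset, ⟨L, h1, h2, ?_⟩, ?_⟩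
  · intro T hT e he
    by_cases hF : e ∈ F
    · exact Or.inl hF
    · exact Or.inr ⟨mem_biUnion hT he, hF⟩
  · rintro e ⟨he, hF⟩
    obtain ⟨T, hT, he⟩ := mem_iUnion₂.1 he
    exact (h3 T hT he).resolve_left hF

theorem exists_lists [IsWellOrder I r] (hD : IsTournament D) (hv : Valid D c r) {h : I → ℕ}
    (hh : ∀ j i, Dep c r j i → h j < h i) (S : I → Set I) (hS : ∀ i, DC c r (S i))
    (hn : ∀ i, ∀ j ∈ S i, h j ≤ h i) (hi : ∀ i, i ∉ S i) (hp : ∀ i j, Dep c r j i → j ∈ S i) :
    ∃ L : I → List (List V), (∀ i, Runs (flip D (oddE c (S i))) (L i) ∧ xorE (L i) = edges (c i)) ∧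
      ∀ e, {i | ∃ T ∈ L i, e ∈ edges T}.Finite := by
  classical
  have hcyc : ∀ i, IsDiCycle (flip D (oddE c (S i))) (c i) := fun i =>
    cyc_of_dc hv (hS i) (hi i) (hp i)
  let nb : I → V → V := fun k x => if hx : x ∈ c k then (exists_arc hx).choose else x
  have hnb : ∀ k x, x ∈ c k → Arc (c k) x (nb k x) := fun k x hx => by
    simp only [nb, dif_pos hx]; exact (exists_arc hx).choose_spec
  have hne : ∀ i, ∃ x, x ∈ c i := fun i => by
    have := (hcyc i).2.1
    exact List.exists_mem_of_length_pos (by omega)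
  let sys : Sys V I (Set I) :=
    { vert := fun i => {x | x ∈ c i}
      pc := piece c
      W := pW c
      Good := fun i A => TR (edges (c i) ∪ A) (flip D (oddE c (S i))) (edges (c i))
      nb := nb
      hvf := fun i => (c i).finite_toSet
      hne := hne
      hpc := by
        intro p
        rcases {i | piece c i = p}.eq_empty_or_nonempty with h0 | ⟨i, hi⟩
        · rw [h0]; exact countable_empty
        have : (Cardinal.mk {b | ∃ a ∈ ({i} : Set I), ReflTransGen (Sh c) a b}) ≤ Cardinal.aleph0 :=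
          card_closure le_rfl (card_of_countable le_rfl (countable_singleton i))
            fun a => card_of_countable le_rfl (sh_finite hv a).countable
        refine (Cardinal.le_aleph0_iff_set_countable.1 this).mono ?_
        intro k hk
        refine ⟨i, rfl, ?_⟩
        have : k ∈ piece c k := ReflTransGen.refl
        rwa [show piece c k = p from hk, ← show piece c i = p from hi] at this
      hW := by
        rintro e _ _ ⟨k, rfl, hk⟩ ⟨l, rfl, hl⟩
        exact piece_eq (ReflTransGen.single ⟨e, hk, hl⟩)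
      hlf := by
        intro Z hZ
        refine (hZ.biUnion fun a _ => hZ.biUnion fun b _ => hv.1 s(a, b)).subset fun i hi => ?_
        obtain ⟨x, hx⟩ := hne i
        exact mem_biUnion (hi hx) (mem_biUnion (hi (arc_mem (hnb i x hx)).2)
          (mem_edges.2 (Or.inl (hnb i x hx))))
      hfan := by
        intro i s hs
        refine ⟨(fun y => s(s, y)) '' {y | y ∈ c i}, (c i).finite_toSet.image _,
          fan (hD.flip _) (hcyc i) hs subset_union_left fun y hy => Or.inr ⟨y, hy, rfl⟩, ?_⟩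
        rintro _ ⟨y, hy, rfl⟩
        refine ⟨by simp, fun x hx => ?_⟩
        rcases Sym2.mem_iff.1 hx with rfl | rfl
        · exact hs
        · exact hy
      hnb := fun k x hx => (arc_mem (hnb k x hx)).2
      hnbf := fun x y => (hv.1 s(x, y)).subset fun k hk =>
        mem_edges.2 (Or.inl (hk.2 ▸ hnb k x hk.1))
      hhelp := by
        intro i k x hx hxk hpc hs
        have hsk := (arc_mem (hnb k x hxk)).2
        have := helper (W := pW c (piece c k)) (hD.flip _) (hcyc i) hs hx
          (Set.disjoint_left.2 (by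
            rintro e ⟨l, hl, he⟩ he'
            exact hpc (hl.symm.trans (piece_eq (ReflTransGen.single ⟨e, he, he'⟩)))))
          ⟨k, rfl, mem_edges.2 (Or.inl (hnb k x hxk))⟩
          (rch_piece hv hh (hS i) (hn i) k hxk hsk) (rch_piece hv hh (hS i) (hn i) k hsk hxk)
        obtain ⟨A, h1, h2, h3⟩ := this.finite
        exact ⟨A, h1, h2, fun e he => (h3 he).symm⟩ }
  obtain ⟨A, hA, hAf⟩ := sys.sol univ
  choose L h1 h2 h3 using fun i => (hA i (mem_univ i)).2.1
  refine ⟨L, fun i => ⟨h1 i, h2 i⟩, fun e => ((hv.1 e).union (hAf e)).subset ?_⟩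
  rintro i ⟨T, hT, he⟩
  rcases h3 i T hT he with a | a
  · exact Or.inl a
  · exact Or.inr ⟨mem_univ i, a⟩

theorem runs_get : ∀ {L : List (List V)} {B : V → V → Prop}, Runs B L → ∀ (n : ℕ)
    (hn : n < L.length), IsDiCycle (flip B (xorE (L.take n))) L[n] ∧ L[n].length = 3
  | [], _, _, _, hn => by simp at hn
  | T :: L, B, h, 0, _ => by simpa [xorE, flip_empty] using ⟨h.1, h.2.1⟩
  | T :: L, B, h, n + 1, hn => by
    have := runs_get h.2.2 n (by simpa using hn)
    rw [flip_flip] at this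
    simpa [xorE] using this

section Blocks

variable (L : I → List (List V))

/-- Positions in the concatenated sequence. -/
abbrev Pos : Type u := {p : I × ℕ // p.2 < (L p.1).length}

/-- The triangle at a position. -/
def Pos.tri (p : Pos L) : List V := (L p.1.1)[p.1.2]'p.2

variable {L}

theorem pos_finite (hL : ∀ e, {i | ∃ T ∈ L i, e ∈ edges T}.Finite) (e : Sym2 V) :
    {p : Pos L | e ∈ edges (Pos.tri L p)}.Finite := by
  have h1 : ∀ i, {p : Pos L | p.1.1 = i}.Finite := by
    intro i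
    refine Set.Finite.of_finite_image (f := fun p => p.1.2)
      ((finite_Iio (L i).length).subset ?_) ?_
    · rintro _ ⟨p, rfl, rfl⟩; exact p.2
    · intro p hp q hq e
      exact Subtype.ext (Prod.ext (hp.trans hq.symm) e)
  exact ((hL e).biUnion fun i _ => h1 i).subset fun p hp =>
    mem_biUnion (x := p.1.1) ⟨_, List.getElem_mem p.2, hp⟩ rfl

theorem oddE_within (hL : ∀ e, {i | ∃ T ∈ L i, e ∈ edges T}.Finite) {X : Set (Pos L)} {i : I}
    (hX : ∀ q ∈ X, q.1.1 ≠ i) : ∀ n ≤ (L i).length,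
    oddE (Pos.tri L) (X ∪ {q | q.1.1 = i ∧ q.1.2 < n}) =
      symmDiff (oddE (Pos.tri L) X) (xorE ((L i).take n)) := by
  intro n
  induction n with
  | zero =>
    intro _
    have : X ∪ {q | q.1.1 = i ∧ q.1.2 < 0} = X := by simp
    rw [this]; simp [xorE, ← Set.bot_eq_empty]
  | succ n ih =>
    intro hn
    let m : Pos L := ⟨(i, n), hn⟩
    have e : X ∪ {q | q.1.1 = i ∧ q.1.2 < n + 1} = insert m (X ∪ {q | q.1.1 = i ∧ q.1.2 < n}) := by
      ext q
      simp only [mem_union, mem_ofPred_eq, mem_insert_iff]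
      constructor
      · rintro (h | ⟨h1, h2⟩)
        · exact Or.inr (Or.inl h)
        · rcases (Nat.le_of_lt_succ h2).eq_or_lt with h | h
          · exact Or.inl (Subtype.ext (Prod.ext h1 h))
          · exact Or.inr (Or.inr ⟨h1, h⟩)
      · rintro (rfl | h | ⟨h1, h2⟩)
        · exact Or.inr ⟨rfl, Nat.lt_succ_self n⟩
        · exact Or.inl h
        · exact Or.inr ⟨h1, Nat.lt_succ_of_lt h2⟩
    have hm : m ∉ X ∪ {q | q.1.1 = i ∧ q.1.2 < n} := by
      rintro (h | h)
      · exact hX m h rfl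
      · exact lt_irrefl _ h.2
    rw [e, oddE_insert hm fun e => (pos_finite hL e).subset fun _ h => h.2, ih (by omega),
      List.take_succ_eq_append_getElem hn, xorE_append, symmDiff_assoc]
    simp [xorE, ← Set.bot_eq_empty, Pos.tri, m]

theorem oddE_blocks (hL : ∀ e, {i | ∃ T ∈ L i, e ∈ edges T}.Finite)
    (hc : ∀ e, {i | e ∈ edges (c i)}.Finite) (hx : ∀ i, xorE (L i) = edges (c i)) (S : Set I) :
    oddE (Pos.tri L) {q | q.1.1 ∈ S} = oddE c S := by
  have fin : ∀ S : Set I, S.Finite → oddE (Pos.tri L) {q | q.1.1 ∈ S} = oddE c S := by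
    intro S hS
    induction S, hS using Set.Finite.induction_on with
    | empty => simp [oddE_empty]
    | @insert a s ha _ ih =>
      have e : {q : Pos L | q.1.1 ∈ insert a s} =
          {q : Pos L | q.1.1 ∈ s} ∪ {q | q.1.1 = a ∧ q.1.2 < (L a).length} := by
        ext q
        simp only [mem_union, mem_ofPred_eq, mem_insert_iff]
        constructor
        · rintro (h | h)
          · exact Or.inr ⟨h, h ▸ q.2⟩
          · exact Or.inl h
        · rintro (h | h)
          · exact Or.inr h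
          · exact Or.inl h.1
      rw [e, oddE_within (X := {q : Pos L | q.1.1 ∈ s}) (i := a) hL (fun q hq h => ha (h ▸ hq)) _ le_rfl, ih, List.take_length, hx,
        oddE_insert ha fun e => (hc e).subset fun _ h => h.2]
  ext e
  let F : Set I := {i | ∃ T ∈ L i, e ∈ edges T} ∪ {i | e ∈ edges (c i)}
  have hF : (S ∩ F).Finite := ((hL e).union (hc e)).subset inter_subset_right
  rw [oddE_congr (S' := {q : Pos L | q.1.1 ∈ S ∩ F}), fin _ hF, oddE_congr (S' := S)]
  · exact fun i hi => ⟨fun h => h.1, fun h => ⟨h, Or.inr hi⟩⟩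
  · exact fun q hq => ⟨fun h => ⟨h, Or.inl ⟨_, List.getElem_mem q.2, hq⟩⟩, fun h => h.1⟩

end Blocks

theorem valid_triangles [IsWellOrder I r] (hD : IsTournament D) (hv : Valid D c r) :
    ∃ (J : Type u) (r' : J → J → Prop) (_ : IsWellOrder J r') (t : J → List V),
      Valid D t r' ∧ (∀ j, (t j).length = 3) ∧ oddE t univ = oddE c univ := by
  obtain ⟨h, hh⟩ := exists_height hv
  let S : I → Set I := fun i => {j | h j < h i ∨ (h j = h i ∧ r j i)}
  have hn : ∀ i, ∀ j ∈ S i, h j ≤ h i := fun i j hj => hj.elim le_of_lt fun a => a.1.le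
  obtain ⟨L, hL, hLf⟩ := exists_lists hD hv hh S
    (fun i j k hjk hk => Or.inl ((hh _ _ hjk).trans_le (hn i k hk))) hn
    (fun i hi => hi.elim (lt_irrefl _) fun a => irrefl_of r i a.2)
    (fun i j hj => Or.inl (hh _ _ hj))
  have hiS : ∀ i, i ∉ S i := fun i hi => hi.elim (lt_irrefl _) fun a => irrefl_of r i a.2
  let key : Pos L → ℕ ×ₗ Ordinal.{u} ×ₗ ℕ := fun p =>
    toLex (h p.1.1, toLex (typein r p.1.1, p.1.2))
  have hkey : Function.Injective key := by
    intro p q e
    have e1 := congrArg (fun x => (ofLex (ofLex x).2).1) e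
    have e2 := congrArg (fun x => (ofLex (ofLex x).2).2) e
    exact Subtype.ext (Prod.ext (typein_injective r e1) e2)
  have : IsWellOrder (ℕ ×ₗ Ordinal.{u} ×ₗ ℕ) (· < ·) := ⟨⟩
  refine ⟨Pos L, Function.onFun (· < ·) key, hkey.isWellOrder _, Pos.tri L,
    ⟨pos_finite hLf, fun p => ?_⟩, fun p => (runs_get (hL p.1.1).1 _ p.2).2, ?_⟩
  · have e : {q | Function.onFun (· < ·) key q p} =
        {q : Pos L | q.1.1 ∈ S p.1.1} ∪ {q | q.1.1 = p.1.1 ∧ q.1.2 < p.1.2} := by
      ext q
      simp only [Function.onFun, key, S, Prod.Lex.toLex_lt_toLex, mem_ofPred_eq, mem_union,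
        typein_lt_typein, typein_inj]
      constructor
      · rintro (a | ⟨a, b | b⟩)
        · exact Or.inl (Or.inl a)
        · exact Or.inl (Or.inr ⟨a, b⟩)
        · exact Or.inr b
      · rintro ((a | a) | a)
        · exact Or.inl a
        · exact Or.inr ⟨a.1, Or.inl a.2⟩
        · exact Or.inr ⟨by rw [a.1], Or.inr a⟩
    rw [e, oddE_within (X := {q : Pos L | q.1.1 ∈ S p.1.1}) (i := p.1.1) hLf (fun q hq a => hiS p.1.1 (a ▸ hq)) _ p.2.le,
      oddE_blocks hLf hv.1 (fun i => (hL i).2), ← flip_flip]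
    exact (runs_get (hL p.1.1).1 _ p.2).1
  · rw [← oddE_blocks hLf hv.1 (fun i => (hL i).2) univ]
    simp

end Reorder

theorem main {D : V → V → Prop} (hD : IsTournament D) {f : Ordinal.{u} → List V}
    {α : Ordinal.{u}} {E : V → V → Prop} (h : RS D f α E) :
    ∃ (g : Ordinal.{u} → List V) (β : Ordinal.{u}), (∀ i < β, (g i).length = 3) ∧ RS D g β E := by
  obtain ⟨I, r, _, c, hv, rfl⟩ := h.valid hD
  obtain ⟨J, r', _, t, ht, h3, e⟩ := valid_triangles hD hv
  obtain ⟨g, β, h1, h2⟩ := ht.rs hD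
  refine ⟨g, β, fun i hi => ?_, e ▸ h2⟩
  obtain ⟨j, hj⟩ := h1 i hi
  rw [hj, h3]

end Pool.Agent.P.MP_b43b3b_co
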