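import Pool.Agent.P.MP_b43b3b_co.Wheel

/-! Reversal sequences described by parities. -/

namespace Pool.Agent.P.MP_b43b3b_co

universe u v

open Set Ordinal

variable {V : Type u}

/-- Edges lying in an odd number of the terms indexed by `S`. -/
def oddE {I : Type v} (c : I → List V) (S : Set I) : Set (Sym2 V) :=
  {e | Odd (Set.ncard {i | i ∈ S ∧ e ∈ edges (c i)})}

theorem oddE_congr {I : Type v} {c : I → List V} {S S' : Set I} {e : Sym2 V}
    (h : ∀ i, e ∈ edges (c i) → (i ∈ S ↔ i ∈ S')) : e ∈ oddE c S ↔ e ∈ oddE c S' := by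
  have : {i | i ∈ S ∧ e ∈ edges (c i)} = {i | i ∈ S' ∧ e ∈ edges (c i)} := by
    ext i; exact and_congr_left (h i)
  simp only [oddE, mem_ofPred_eq, this]

theorem oddE_empty {I : Type v} (c : I → List V) : oddE c ∅ = ∅ := by
  ext e; simp [oddE]

theorem oddE_insert {I : Type v} {c : I → List V} {S : Set I} {m : I} (hm : m ∉ S)
    (hf : ∀ e, {i | i ∈ S ∧ e ∈ edges (c i)}.Finite) :
    oddE c (insert m S) = symmDiff (oddE c S) (edges (c m)) := by
  ext e
  rw [Set.mem_symmDiff]
  by_cases he : e ∈ edges (c m)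
  · have : {i | i ∈ insert m S ∧ e ∈ edges (c i)} = insert m {i | i ∈ S ∧ e ∈ edges (c i)} := by
      ext i
      simp only [mem_insert_iff, mem_ofPred_eq]
      constructor
      · tauto
      · rintro (rfl | h)
        · exact ⟨Or.inl rfl, he⟩
        · exact ⟨Or.inr h.1, h.2⟩
    simp only [oddE, mem_ofPred_eq, this]
    rw [ncard_insert_of_notMem (fun h => hm h.1) (hf e), Nat.odd_add_one]
    simp [he]
  · have : e ∈ oddE c (insert m S) ↔ e ∈ oddE c S := oddE_congr fun i hi => by
      have : i ≠ m := by rintro rfl; exact he hi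
      simp [this]
    simp [this, he]

theorem oddE_comp {I : Type v} {J : Type*} (c : I → List V) {g : J → I}
    (hg : Function.Injective g) (S : Set J) : oddE (fun j => c (g j)) S = oddE c (g '' S) := by
  ext e
  have : {i | i ∈ g '' S ∧ e ∈ edges (c i)} = g '' {j | j ∈ S ∧ e ∈ edges (c (g j))} := by
    ext i
    constructor
    · rintro ⟨⟨j, hj, rfl⟩, h⟩; exact ⟨j, ⟨hj, h⟩, rfl⟩
    · rintro ⟨j, ⟨hj, h⟩, rfl⟩; exact ⟨⟨j, hj, rfl⟩, h⟩
  simp only [oddE, mem_ofPred_eq, this, ncard_image_of_injective _ hg]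

theorem flip_congr {D : V → V → Prop} {F G : Set (Sym2 V)} {u v : V}
    (h : s(u, v) ∈ F ↔ s(u, v) ∈ G) : flip D F u v ↔ flip D G u v := by
  simp only [flip, h]

theorem Iio_add_one (α : Ordinal.{u}) : Iio (α + 1) = insert α (Iio α) := by
  rw [← Order.succ_eq_add_one, Order.Iio_succ_eq_insert]

theorem exists_bound {G : Set Ordinal.{u}} (hG : G.Finite) {ζ ν : Ordinal.{u}}
    {L : Ordinal.{u} → Ordinal.{u}} (hν : ν < ζ) (hm : ∀ ξ η, ξ ≤ η → η < ζ → L ξ ≤ L η)
    (h : ∀ i ∈ G, ∃ ξ < ζ, i < L ξ) : ∃ ξ < ζ, ν ≤ ξ ∧ ∀ i ∈ G, i < L ξ := by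
  induction G, hG using Set.Finite.induction_on with
  | empty => exact ⟨ν, hν, le_rfl, by simp⟩
  | @insert a s _ _ ih =>
    obtain ⟨ξ, h1, h2, h3⟩ := ih fun i hi => h i (Or.inr hi)
    obtain ⟨η, k1, k2⟩ := h a (Or.inl rfl)
    have hmax : max ξ η < ζ := max_lt h1 k1
    refine ⟨max ξ η, hmax, h2.trans (le_max_left _ _), ?_⟩
    rintro i (rfl | hi)
    · exact k2.trans_le (hm _ _ (le_max_right _ _) hmax)
    · exact (h3 i hi).trans_le (hm _ _ (le_max_left _ _) hmax)

theorem RS.parity {D : V → V → Prop} (hD : IsTournament D) {f : Ordinal.{u} → List V}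
    {α : Ordinal.{u}} {E : V → V → Prop} (h : RS D f α E) :
    (∀ e, {i | i ∈ Iio α ∧ e ∈ edges (f i)}.Finite) ∧
    (∀ i < α, IsDiCycle (flip D (oddE f (Iio i))) (f i)) ∧ E = flip D (oddE f (Iio α)) := by
  induction h with
  | nil =>
    refine ⟨fun e => by simp, fun i hi => by simp at hi, ?_⟩
    rw [show Iio (0 : Ordinal.{u}) = ∅ by simp, oddE_empty, flip_empty]
  | @snoc α E _ hc ih =>
    obtain ⟨h1, h2, rfl⟩ := ih
    refine ⟨fun e => ((h1 e).insert α).subset ?_, fun i hi => ?_, ?_⟩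
    · rintro i ⟨hi, he⟩
      rw [Iio_add_one] at hi
      rcases hi with rfl | hi
      · exact Or.inl rfl
      · exact Or.inr ⟨hi, he⟩
    · rcases (Order.lt_add_one_iff.1 hi).eq_or_lt with rfl | hi
      · exact hc
      · exact h2 i hi
    · rw [rev_eq_flip (hD.flip _) hc, flip_flip, Iio_add_one, oddE_insert (by simp) h1]
  | @lim ζ α L Es E _ hm hα hf hl ih =>
    have hf' : ∀ e, {i | i ∈ Iio α ∧ e ∈ edges (f i)}.Finite := by
      intro e
      induction e using Sym2.ind with
      | h u v => simpa only [mem_edges, mem_Iio] using hf u v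
    refine ⟨hf', fun i hi => ?_, ?_⟩
    · obtain ⟨ξ, h1, h2⟩ := (hα i).1 hi
      exact (ih ξ h1).2.1 i h2
    · funext u v
      obtain ⟨ν, hν, h⟩ := hl u v
      obtain ⟨ξ, h1, h2, h3⟩ := exists_bound (hf' s(u, v)) hν hm fun i hi => (hα i).1 hi.1
      rw [← propext (h ξ h2 h1), (ih ξ h1).2.2]
      refine propext (flip_congr (oddE_congr fun i hi => ⟨fun k => (hα i).2 ⟨ξ, h1, k⟩,
        fun k => h3 i ⟨k, hi⟩⟩))

theorem rs_of_parity {D : V → V → Prop} (hD : IsTournament D) {g : Ordinal.{u} → List V}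
    {β : Ordinal.{u}} (hf : ∀ e, {i | i ∈ Iio β ∧ e ∈ edges (g i)}.Finite)
    (hc : ∀ i < β, IsDiCycle (flip D (oddE g (Iio i))) (g i)) :
    RS D g β (flip D (oddE g (Iio β))) := by
  have hf' : ∀ o ≤ β, ∀ e, {i | i ∈ Iio o ∧ e ∈ edges (g i)}.Finite := fun o ho e =>
    (hf e).subset fun i hi => ⟨hi.1.trans_le ho, hi.2⟩
  suffices H : ∀ o ≤ β, RS D g o (flip D (oddE g (Iio o))) from H β le_rfl
  intro o
  induction o using Ordinal.limitRecOn with
  | zero =>
    intro _
    rw [show Iio (0 : Ordinal.{u}) = ∅ by simp, oddE_empty, flip_empty]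
    exact RS.nil
  | add_one o ih =>
    intro h
    have ho : o < β := (lt_add_one o).trans_le h
    have := RS.snoc (ih ho.le) (hc o ho)
    rwa [rev_eq_flip (hD.flip _) (hc o ho), flip_flip, ← oddE_insert (by simp) (hf' o ho.le),
      ← Iio_add_one] at this
  | limit o hl ih =>
    intro h
    refine RS.lim (ζ := o) (L := id) (Es := fun ξ => flip D (oddE g (Iio ξ)))
      (fun ξ hξ => ih ξ hξ (hξ.le.trans h)) (fun ξ η k _ => k) ?_ ?_ ?_
    · exact fun i => ⟨fun hi => ⟨i + 1, hl.add_one_lt hi, lt_add_one i⟩,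
        fun ⟨ξ, h1, h2⟩ => lt_trans h2 h1⟩
    · intro u v
      simpa only [mem_edges, mem_Iio] using hf' o h s(u, v)
    · intro u v
      obtain ⟨ν, h1, -, h3⟩ := exists_bound (L := id) (hf' o h s(u, v)) hl.bot_lt
        (fun ξ η k _ => k) fun i hi => ⟨i + 1, hl.add_one_lt hi.1, lt_add_one i⟩
      refine ⟨ν, h1, fun ξ k1 k2 => flip_congr (oddE_congr fun i hi =>
        ⟨fun k => lt_trans k k2, fun k => (h3 i ⟨k, hi⟩).trans_le k1⟩)⟩

/-- A reversal sequence indexed by a well-ordered type. -/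
def Valid {I : Type u} (D : V → V → Prop) (c : I → List V) (r : I → I → Prop) : Prop :=
  (∀ e, {i | e ∈ edges (c i)}.Finite) ∧ ∀ i, IsDiCycle (flip D (oddE c {j | r j i})) (c i)

theorem typein_image {I : Type u} (r : I → I → Prop) [IsWellOrder I r] (i : I) :
    typein r '' {j | r j i} = Iio (typein r i) := by
  ext o
  constructor
  · rintro ⟨j, hj, rfl⟩; exact (typein_lt_typein r).2 hj
  · intro h
    obtain ⟨j, rfl⟩ := typein_surj r (lt_trans h (typein_lt_type r i))
    exact ⟨j, (typein_lt_typein r).1 h, rfl⟩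

theorem typein_image_univ {I : Type u} (r : I → I → Prop) [IsWellOrder I r] :
    typein r '' univ = Iio (type r) := by
  ext o
  rw [image_univ, mem_range_typein_iff]; rfl

theorem RS.valid {D : V → V → Prop} (hD : IsTournament D) {f : Ordinal.{u} → List V}
    {α : Ordinal.{u}} {E : V → V → Prop} (h : RS D f α E) :
    ∃ (I : Type u) (r : I → I → Prop) (_ : IsWellOrder I r) (c : I → List V),
      Valid D c r ∧ E = flip D (oddE c univ) := by
  obtain ⟨h1, h2, h3⟩ := h.parity hD
  induction α using Ordinal.inductionOn with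
  | type I r =>
    refine ⟨I, r, inferInstance, fun i => f (typein r i), ⟨fun e => ?_, fun i => ?_⟩, ?_⟩
    · exact ((h1 e).preimage (typein_injective r).injOn).subset
        fun i hi => ⟨typein_lt_type r i, hi⟩
    · rw [oddE_comp f (typein_injective r), typein_image]
      exact h2 _ (typein_lt_type r i)
    · rw [oddE_comp f (typein_injective r), typein_image_univ, h3]

theorem Valid.rs {D : V → V → Prop} (hD : IsTournament D) {J : Type u} {r : J → J → Prop}
    [IsWellOrder J r] {c : J → List V} (h : Valid D c r) :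
    ∃ (g : Ordinal.{u} → List V) (β : Ordinal.{u}), (∀ i < β, ∃ j, g i = c j) ∧
      RS D g β (flip D (oddE c univ)) := by
  classical
  let g : Ordinal.{u} → List V := fun o => if h : o < type r then c (enum r ⟨o, h⟩) else []
  have hg : ∀ j, g (typein r j) = c j := fun j => by
    simp only [g, dif_pos (typein_lt_type r j), enum_typein]
  have hc : c = fun j => g (typein r j) := funext fun j => (hg j).symm
  refine ⟨g, type r, fun i hi => ⟨_, dif_pos hi⟩, ?_⟩
  rw [hc, oddE_comp g (typein_injective r), typein_image_univ]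
  refine rs_of_parity hD (fun e => ((h.1 e).image (typein r)).subset ?_) fun i hi => ?_
  · rintro i ⟨hi, he⟩
    obtain ⟨j, rfl⟩ := typein_surj r hi
    exact ⟨j, by simpa [hg] using he, rfl⟩
  · obtain ⟨j, rfl⟩ := typein_surj r hi
    rw [← typein_image, ← oddE_comp g (typein_injective r), ← hc, hg]
    exact h.2 j

end Pool.Agent.P.MP_b43b3b_co
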