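import Pool.Agent.P.MP_b43b3b_co.Defs

/-! Reversing one cycle by triangles: fans, wheels and helper cycles. -/

namespace Pool.Agent.P.MP_b43b3b_co

universe u

variable {V : Type u}

/-- Consecutive pairs of a list. -/
def parc : List V → V → V → Prop
  | a :: b :: l, u, v => (u = a ∧ v = b) ∨ parc (b :: l) u v
  | _, _, _ => False

/-- Unordered consecutive pairs of a list. -/
def pe (l : List V) : Set (Sym2 V) := {e | ∃ u v, parc l u v ∧ e = s(u, v)}

/-- The edges of a cyclic list. -/
def edges (C : List V) : Set (Sym2 V) := {e | ∃ u v, Arc C u v ∧ e = s(u, v)}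

/-- Reverse the orientation on a set of edges. -/
def flip (B : V → V → Prop) (F : Set (Sym2 V)) : V → V → Prop :=
  fun u v => (s(u, v) ∉ F ∧ B u v) ∨ (s(u, v) ∈ F ∧ B v u)

theorem parc_cons2 (a b : V) (l : List V) (u v : V) :
    parc (a :: b :: l) u v ↔ (u = a ∧ v = b) ∨ parc (b :: l) u v := Iff.rfl

theorem parc_single (a u v : V) : ¬ parc [a] u v := id

theorem parc_mem : ∀ {l : List V} {u v : V}, parc l u v → u ∈ l ∧ v ∈ l
  | [], _, _, h => h.elim
  | [_], _, _, h => h.elim
  | a :: b :: l, u, v, h => by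
    rcases h with ⟨rfl, rfl⟩ | h
    · simp
    · have := parc_mem h
      exact ⟨List.mem_cons_of_mem _ this.1, List.mem_cons_of_mem _ this.2⟩

theorem parc_append (a : V) (m : List V) (u v : V) : ∀ l : List V,
    parc (l ++ a :: m) u v ↔ parc (l ++ [a]) u v ∨ parc (a :: m) u v
  | [] => by simp [parc_single]
  | [x] => by simp [parc_cons2, parc_single]
  | x :: y :: l => by
    have := parc_append a m u v (y :: l)
    simp only [List.cons_append, parc_cons2] at this ⊢
    rw [this, or_assoc]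

theorem zip_iff (y u v : V) : ∀ (l : List V) (x : V),
    (u, v) ∈ (x :: l).zip (l ++ [y]) ↔ parc (x :: (l ++ [y])) u v
  | [], x => by simp [parc_cons2, parc_single]
  | z :: l, x => by
    have := zip_iff y u v l z
    simp only [List.cons_append, List.zip_cons_cons, List.mem_cons, Prod.mk.injEq, parc_cons2]
      at this ⊢
    rw [this]

theorem arc_cons (x : V) (l : List V) (u v : V) :
    Arc (x :: l) u v ↔ parc (x :: (l ++ [x])) u v := by
  rw [Arc, List.rotate_cons_succ, List.rotate_zero, zip_iff]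

theorem arc_mem {C : List V} {u v : V} (h : Arc C u v) : u ∈ C ∧ v ∈ C :=
  ⟨(List.of_mem_zip h).1, List.mem_rotate.1 (List.of_mem_zip h).2⟩

theorem arc_rot (l₁ l₂ : List V) (a u v : V) :
    Arc (l₁ ++ a :: l₂) u v ↔ Arc (a :: (l₂ ++ l₁)) u v := by
  rcases l₁ with _ | ⟨h, t⟩
  · simp
  · rw [List.cons_append, arc_cons, arc_cons]
    have e1 : h :: (t ++ a :: l₂ ++ [h]) = (h :: t) ++ a :: (l₂ ++ [h]) := by simp
    have e2 : a :: (l₂ ++ h :: t ++ [a]) = (a :: l₂) ++ h :: (t ++ [a]) := by simp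
    rw [e1, e2, parc_append, parc_append h, or_comm]
    rfl

theorem mem_edges {C : List V} {u v : V} : s(u, v) ∈ edges C ↔ Arc C u v ∨ Arc C v u := by
  constructor
  · rintro ⟨a, b, h, e⟩
    rcases Sym2.eq_iff.1 e with ⟨rfl, rfl⟩ | ⟨rfl, rfl⟩
    · exact Or.inl h
    · exact Or.inr h
  · rintro (h | h)
    · exact ⟨u, v, h, rfl⟩
    · exact ⟨v, u, h, Sym2.eq_swap⟩

theorem edges_mem {C : List V} {e : Sym2 V} (h : e ∈ edges C) {x : V} (hx : x ∈ e) : x ∈ C := by
  obtain ⟨u, v, h, rfl⟩ := h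
  rcases Sym2.mem_iff.1 hx with rfl | rfl
  · exact (arc_mem h).1
  · exact (arc_mem h).2

theorem pe_mem {l : List V} {e : Sym2 V} (h : e ∈ pe l) {x : V} (hx : x ∈ e) : x ∈ l := by
  obtain ⟨u, v, h, rfl⟩ := h
  rcases Sym2.mem_iff.1 hx with rfl | rfl
  · exact (parc_mem h).1
  · exact (parc_mem h).2

theorem pe_cons2 (a b : V) (l : List V) : pe (a :: b :: l) = insert s(a, b) (pe (b :: l)) := by
  ext e
  constructor
  · rintro ⟨u, v, ⟨rfl, rfl⟩ | h, rfl⟩
    · exact Or.inl rfl
    · exact Or.inr ⟨u, v, h, rfl⟩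
  · rintro (rfl | ⟨u, v, h, rfl⟩)
    · exact ⟨a, b, Or.inl ⟨rfl, rfl⟩, rfl⟩
    · exact ⟨u, v, Or.inr h, rfl⟩

theorem pe_single (a : V) : pe [a] = ∅ := by
  ext e; constructor
  · rintro ⟨u, v, h, -⟩; exact h.elim
  · exact fun h => h.elim

theorem pe_append (l : List V) (a : V) (m : List V) :
    pe (l ++ a :: m) = pe (l ++ [a]) ∪ pe (a :: m) := by
  ext e
  simp only [pe, parc_append a m, Set.mem_ofPred_eq, Set.mem_union, or_and_right, exists_or]

theorem edges_cons (x : V) (l : List V) : edges (x :: l) = pe (x :: (l ++ [x])) := by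
  simp only [edges, pe, arc_cons]

theorem edges_finite (C : List V) : (edges C).Finite := by
  refine Set.Finite.subset ((C.zip (C.rotate 1)).finite_toSet.image (fun p => s(p.1, p.2))) ?_
  rintro e ⟨u, v, h, rfl⟩
  exact ⟨(u, v), h, rfl⟩

theorem flip_of_not {B : V → V → Prop} {F : Set (Sym2 V)} {u v : V} (h : s(u, v) ∉ F) :
    flip B F u v ↔ B u v := by simp [flip, h]

theorem flip_of_mem {B : V → V → Prop} {F : Set (Sym2 V)} {u v : V} (h : s(u, v) ∈ F) :
    flip B F u v ↔ B v u := by simp [flip, h]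

theorem flip_flip (B : V → V → Prop) (F G : Set (Sym2 V)) :
    flip (flip B F) G = flip B (symmDiff F G) := by
  funext u v
  have e : s(v, u) = s(u, v) := Sym2.eq_swap
  simp only [flip, Set.mem_symmDiff, e]
  by_cases h1 : s(u, v) ∈ F <;> by_cases h2 : s(u, v) ∈ G <;> simp [h1, h2]

theorem flip_empty (B : V → V → Prop) : flip B ∅ = B := by
  funext u v; simp [flip]

theorem IsTournament.asymm {B : V → V → Prop} (hB : IsTournament B) {u v : V} (h : B u v) :
    ¬ B v u := by
  intro k
  by_cases e : u = v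
  · subst e; exact hB.1 u h
  · rcases hB.2 u v e with a | a
    · exact a.2 k
    · exact a.2 h

theorem IsTournament.ne {B : V → V → Prop} (hB : IsTournament B) {u v : V} (h : B u v) :
    u ≠ v := by
  rintro rfl; exact hB.1 u h

theorem IsTournament.total {B : V → V → Prop} (hB : IsTournament B) {u v : V} (h : u ≠ v) :
    B u v ∨ B v u := by
  rcases hB.2 u v h with a | a
  · exact Or.inl a.1
  · exact Or.inr a.1

theorem IsTournament.flip {B : V → V → Prop} (hB : IsTournament B) (F : Set (Sym2 V)) :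
    IsTournament (flip B F) := by
  refine ⟨fun u => by simp [MP_b43b3b_co.flip, hB.1 u], fun u v h => ?_⟩
  have e : s(v, u) = s(u, v) := Sym2.eq_swap
  by_cases h1 : s(u, v) ∈ F
  · rw [flip_of_mem h1, flip_of_mem (e ▸ h1)]; exact hB.2 v u h.symm
  · rw [flip_of_not h1, flip_of_not (e ▸ h1)]; exact hB.2 u v h

theorem rev_eq_flip {B : V → V → Prop} (hB : IsTournament B) {C : List V} (hC : IsDiCycle B C) :
    rev B C = flip B (edges C) := by
  funext u v
  simp only [rev, flip, mem_edges]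
  by_cases h1 : Arc C u v
  · have := hC.2.2 _ _ h1
    have h2 : ¬ Arc C v u := fun h => hB.asymm this (hC.2.2 _ _ h)
    simp [h1, h2, hB.asymm this]
  · by_cases h2 : Arc C v u
    · simp [h1, h2, hC.2.2 _ _ h2]
    · simp [h1, h2]

/-- A list of triangles that can be reversed one after the other. -/
def Runs : (V → V → Prop) → List (List V) → Prop
  | _, [] => True
  | B, T :: L => IsDiCycle B T ∧ T.length = 3 ∧ Runs (flip B (edges T)) L

/-- The edges reversed an odd number of times. -/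
def xorE : List (List V) → Set (Sym2 V)
  | [] => ∅
  | T :: L => symmDiff (edges T) (xorE L)

theorem xorE_append (L M : List (List V)) : xorE (L ++ M) = symmDiff (xorE L) (xorE M) := by
  induction L with
  | nil => simp [xorE, ← Set.bot_eq_empty]
  | cons T L ih => simp [xorE, ih, symmDiff_assoc]

theorem runs_append : ∀ {L : List (List V)} {B : V → V → Prop} {M : List (List V)},
    Runs B L → Runs (flip B (xorE L)) M → Runs B (L ++ M)
  | [], B, M, _, h => by simpa [xorE, flip_empty] using h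
  | T :: L, B, M, h, k => by
    refine ⟨h.1, h.2.1, runs_append h.2.2 ?_⟩
    rwa [flip_flip]

/-- The edge set `F` can be reversed by triangles with edges in `A`. -/
def TR (A : Set (Sym2 V)) (B : V → V → Prop) (F : Set (Sym2 V)) : Prop :=
  ∃ L : List (List V), Runs B L ∧ xorE L = F ∧ ∀ T ∈ L, edges T ⊆ A

theorem TR.trans {A : Set (Sym2 V)} {B : V → V → Prop} {F G : Set (Sym2 V)} (h : TR A B F)
    (k : TR A (flip B F) G) : TR A B (symmDiff F G) := by
  obtain ⟨L, h1, rfl, h3⟩ := h
  obtain ⟨M, k1, rfl, k3⟩ := k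
  refine ⟨L ++ M, runs_append h1 k1, xorE_append L M, fun T hT => ?_⟩
  rcases List.mem_append.1 hT with a | a
  · exact h3 T a
  · exact k3 T a

theorem TR.mono {A A' : Set (Sym2 V)} {B : V → V → Prop} {F : Set (Sym2 V)} (h : TR A B F)
    (hA : A ⊆ A') : TR A' B F := by
  obtain ⟨L, h1, h2, h3⟩ := h
  exact ⟨L, h1, h2, fun T hT => (h3 T hT).trans hA⟩

theorem edges_tri (a b c : V) : edges [a, b, c] = {s(a, b), s(b, c), s(c, a)} := by
  rw [edges_cons]
  simp [pe_cons2, pe_single]

theorem TR.tri {A : Set (Sym2 V)} {B : V → V → Prop} (hB : IsTournament B) {a b c : V}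
    (h1 : B a b) (h2 : B b c) (h3 : B c a) (hA : ({s(a, b), s(b, c), s(c, a)} : Set _) ⊆ A) :
    TR A B {s(a, b), s(b, c), s(c, a)} := by
  refine ⟨[[a, b, c]], ⟨⟨?_, le_rfl, ?_⟩, rfl, trivial⟩, ?_, ?_⟩
  · simp [hB.ne h1, hB.ne h2, (hB.ne h3).symm]
  · intro u v h
    rw [arc_cons] at h
    simp only [List.cons_append, List.nil_append, parc_cons2] at h
    rcases h with ⟨rfl, rfl⟩ | ⟨rfl, rfl⟩ | ⟨rfl, rfl⟩ | h
    · exact h1
    · exact h2
    · exact h3
    · exact h.elim
  · simp [xorE, edges_tri, ← Set.bot_eq_empty]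
  · simpa [edges_tri] using hA

theorem fan_aux {A : Set (Sym2 V)} (s z : V) : ∀ (q : List V) (x : V) (B : V → V → Prop),
    IsTournament B → (s :: x :: (q ++ [z])).Nodup → B s x → B z s →
    (∀ u v, parc (x :: (q ++ [z])) u v → B u v) → pe (x :: (q ++ [z])) ⊆ A →
    (∀ y ∈ x :: (q ++ [z]), s(s, y) ∈ A) →
    TR A B (insert s(s, x) (insert s(s, z) (pe (x :: (q ++ [z])))))
  | [], x, B, hB, _, h1, h2, h3, hA, hs => by
    have e : (insert s(s, x) (insert s(s, z) (pe (x :: ([] ++ [z])))) : Set (Sym2 V)) =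
        {s(s, x), s(x, z), s(z, s)} := by
      simp only [List.nil_append, pe_cons2, pe_single]
      ext e; simp only [Set.mem_insert_iff, Set.mem_singleton_iff, Set.mem_empty_iff_false,
        Sym2.eq_swap (a := z) (b := s)]
      tauto
    rw [e]
    refine TR.tri hB h1 (h3 _ _ (Or.inl ⟨rfl, rfl⟩)) h2 ?_
    rw [← e]
    rintro e (rfl | rfl | h)
    · exact hs _ (by simp)
    · exact hs _ (by simp)
    · exact hA h
  | y :: q, x, B, hB, hn, h1, h2, h3, hA, hs => by
    simp only [List.cons_append] at *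
    have hn' : (s :: y :: (q ++ [z])).Nodup :=
      hn.sublist (by simp)
    have hsx : s ≠ x := hB.ne h1
    have hxy : B x y := h3 _ _ (Or.inl ⟨rfl, rfl⟩)
    have hsl : s ∉ y :: (q ++ [z]) := (List.nodup_cons.1 hn').1
    have hxl : x ∉ y :: (q ++ [z]) := (List.nodup_cons.1 (List.nodup_cons.1 hn).2).1
    have hyl : y ∉ q ++ [z] := (List.nodup_cons.1 (List.nodup_cons.1 hn').2).1
    have hsy : s ≠ y := fun h => hsl (by simp [h])
    have hsz : s ≠ z := fun h => hsl (by simp [h])
    have hxy' : x ≠ y := fun h => hxl (by simp [h])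
    have hxz : x ≠ z := fun h => hxl (by simp [h])
    have hyz : y ≠ z := fun h => hyl (by simp [h])
    have n1 : ∀ w, s(s, w) ∉ pe (y :: (q ++ [z])) := fun w h => hsl (pe_mem h (by simp))
    have n2 : ∀ w, s(x, w) ∉ pe (y :: (q ++ [z])) := fun w h => hxl (pe_mem h (by simp))
    have hA' : pe (y :: (q ++ [z])) ⊆ A := fun e h => hA (by rw [pe_cons2]; exact Or.inr h)
    have hs' : ∀ w ∈ y :: (q ++ [z]), s(s, w) ∈ A := fun w h => hs w (List.mem_cons_of_mem _ h)
    have hT : ({s(s, x), s(x, y), s(y, s)} : Set (Sym2 V)) ⊆ A := by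
      rintro e (rfl | rfl | rfl)
      · exact hs _ (by simp)
      · exact hA (by rw [pe_cons2]; exact Or.inl rfl)
      · rw [Sym2.eq_swap]; exact hs _ (by simp)
    have key : symmDiff (insert s(s, y) (insert s(s, z) (pe (y :: (q ++ [z])))))
        ({s(s, x), s(x, y), s(y, s)} : Set (Sym2 V)) =
        insert s(s, x) (insert s(s, z) (pe (x :: y :: (q ++ [z])))) := by
      rw [pe_cons2]
      ext e
      simp only [Set.mem_symmDiff, Set.mem_insert_iff, Set.mem_singleton_iff,
        Sym2.eq_swap (a := y) (b := s)]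
      by_cases e1 : e = s(s, x)
      · subst e1; simp [n1, hxy', hxz, hsz, hsy]
      by_cases e2 : e = s(x, y)
      · subst e2; simp [n2, hsx.symm, hsy.symm]
      by_cases e3 : e = s(s, y)
      · subst e3; simp [n1, hxy'.symm, hyz, hsx, hsz]
      simp [e1, e2, e3]
    rcases hB.total hsy with h | h
    · have ih := fan_aux s z q y B hB hn' h h2 (fun u v k => h3 u v (Or.inr k)) hA' hs'
      rw [← key]
      refine ih.trans (TR.tri (hB.flip _) ?_ ?_ ?_ hT)
      · rw [flip_of_not]; exact h1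
        simp [n1, hxy', hxz, hsz, hsy]
      · rw [flip_of_not]; exact hxy
        simp [n2, hsx.symm, hsy.symm]
      · rw [flip_of_mem]; exact h
        rw [Sym2.eq_swap]; exact Or.inl rfl
    · rw [← key, symmDiff_comm]
      refine (TR.tri hB h1 hxy h hT).trans (fan_aux s z q y _ (hB.flip _) hn' ?_ ?_ ?_ hA' hs')
      · rw [flip_of_mem]; exact h
        rw [Sym2.eq_swap]; simp
      · rw [flip_of_not]; exact h2
        simp [hsz.symm, hxz.symm, hyz.symm, hsx, hsy]
      · intro u v k
        rw [flip_of_not]; exact h3 u v (Or.inr k)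
        have hm : s(u, v) ∈ pe (y :: (q ++ [z])) := ⟨u, v, k, rfl⟩
        rintro (e | e | e)
        · exact n1 _ (e ▸ hm)
        · exact n2 _ (e ▸ hm)
        · exact n1 y (by rw [Sym2.eq_swap, ← e]; exact hm)

end Pool.Agent.P.MP_b43b3b_co
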