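import Pool.Agent.P.MP_b43b3b_co.Tri

/-! Fans, wheels and helper cycles. -/

namespace Pool.Agent.P.MP_b43b3b_co

universe u

variable {V : Type u}

theorem parc_tail : ∀ {l : List V} {a u v : V}, parc (a :: l) u v → v ∈ l
  | [], _, _, _, h => h.elim
  | b :: l, a, u, v, h => by
    rcases h with ⟨rfl, rfl⟩ | h
    · simp
    · exact List.mem_cons_of_mem _ (parc_tail h)

theorem parc_init : ∀ {l : List V} {a u v : V}, parc (l ++ [a]) u v → u ∈ l
  | [], _, _, _, h => h.elim
  | [b], a, u, v, h => by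
    rcases h with ⟨rfl, rfl⟩ | h
    · simp
    · exact h.elim
  | b :: c :: l, a, u, v, h => by
    rcases h with ⟨rfl, rfl⟩ | h
    · simp
    · exact List.mem_cons_of_mem _ (parc_init (l := c :: l) h)

theorem IsDiCycle.of_disjoint {B : V → V → Prop} {C : List V} (h : IsDiCycle B C)
    {G : Set (Sym2 V)} (hG : Disjoint (edges C) G) : IsDiCycle (flip B G) C :=
  ⟨h.1, h.2.1, fun u v k => (flip_of_not fun m =>
    Set.disjoint_left.1 hG (mem_edges.2 (Or.inl k)) m).2 (h.2.2 u v k)⟩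

theorem runs_disj {G : Set (Sym2 V)} : ∀ {L : List (List V)} {B : V → V → Prop},
    Runs B L → (∀ T ∈ L, Disjoint (edges T) G) → Runs (flip B G) L
  | [], _, _, _ => trivial
  | T :: L, B, h, k => by
    refine ⟨h.1.of_disjoint (k T (by simp)), h.2.1, ?_⟩
    rw [flip_flip, symmDiff_comm, ← flip_flip]
    exact runs_disj h.2.2 fun T' hT => k T' (List.mem_cons_of_mem _ hT)

theorem TR.disj {A : Set (Sym2 V)} {B : V → V → Prop} {F G : Set (Sym2 V)} (h : TR A B F)
    (hG : Disjoint A G) : TR A (flip B G) F := by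
  obtain ⟨L, h1, h2, h3⟩ := h
  exact ⟨L, runs_disj h1 fun T hT => hG.mono_left (h3 T hT), h2, h3⟩

theorem TR.refl (A : Set (Sym2 V)) (B : V → V → Prop) : TR A B ∅ :=
  ⟨[], trivial, rfl, by simp⟩

theorem symm_aux {A : Set (Sym2 V)} : ∀ {L : List (List V)} {B : V → V → Prop},
    IsTournament B → Runs B L → (∀ T ∈ L, edges T ⊆ A) → TR A (flip B (xorE L)) (xorE L)
  | [], B, _, _, _ => TR.refl _ _
  | T :: L, B, hB, h, k => by
    have ih := symm_aux (hB.flip _) h.2.2 fun T' hT => k T' (List.mem_cons_of_mem _ hT)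
    rw [flip_flip] at ih
    rw [xorE]
    conv => rhs; rw [symmDiff_comm]
    refine ih.trans ?_
    rw [flip_flip, symmDiff_assoc, symmDiff_self, symmDiff_bot]
    obtain ⟨a, b, c, rfl⟩ := List.length_eq_three.1 h.2.1
    have hA := k _ (List.mem_cons_self)
    have arcs := h.1.2.2
    simp only [arc_cons, List.cons_append, List.nil_append, parc_cons2] at arcs
    have e : edges [a, b, c] = {s(a, c), s(c, b), s(b, a)} := by
      rw [edges_tri]
      ext e
      simp only [Set.mem_insert_iff, Set.mem_singleton_iff, Sym2.eq_swap (a := a) (b := c),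
        Sym2.eq_swap (a := c) (b := b), Sym2.eq_swap (a := b) (b := a)]
      tauto
    rw [e] at hA ⊢
    refine TR.tri (hB.flip _) ?_ ?_ ?_ hA
    · rw [flip_of_mem (by simp)]; exact arcs _ _ (by simp)
    · rw [flip_of_mem (by simp)]; exact arcs _ _ (by simp)
    · rw [flip_of_mem (by simp)]; exact arcs _ _ (by simp)

theorem TR.symm {A : Set (Sym2 V)} {B : V → V → Prop} {F : Set (Sym2 V)} (hB : IsTournament B)
    (h : TR A B F) : TR A (flip B F) F := by
  obtain ⟨L, h1, rfl, h3⟩ := h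
  exact symm_aux hB h1 h3

theorem exists_snoc {p : List V} (h : 2 ≤ p.length) : ∃ x q z, p = x :: (q ++ [z]) := by
  rcases p with _ | ⟨x, p⟩
  · simp at h
  · have hp : p ≠ [] := by rintro rfl; simp at h
    exact ⟨x, p.dropLast, p.getLast hp, by rw [List.dropLast_append_getLast hp]⟩

theorem fan_head {A : Set (Sym2 V)} {B : V → V → Prop} (hB : IsTournament B) {s : V} {p : List V}
    (hC : IsDiCycle B (s :: p)) (hA : edges (s :: p) ⊆ A) (hs : ∀ y ∈ p, s(s, y) ∈ A) :
    TR A B (edges (s :: p)) := by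
  obtain ⟨x, q, z, rfl⟩ := exists_snoc (p := p) (by have := hC.2.1; simp at this; omega)
  have e0 : s :: (x :: (q ++ [z]) ++ [s]) = s :: ((x :: q) ++ z :: [s]) := by simp
  have e : edges (s :: x :: (q ++ [z])) =
      insert s(s, x) (insert s(s, z) (pe (x :: (q ++ [z])))) := by
    rw [edges_cons, e0, List.cons_append, pe_cons2, ← List.cons_append, pe_append, pe_cons2,
      pe_single, Sym2.eq_swap (a := z)]
    ext e; simp only [Set.mem_insert_iff, Set.mem_union, Set.mem_empty_iff_false,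
      List.cons_append]; tauto
  have arcs : ∀ u v, ((u = s ∧ v = x) ∨ parc (x :: (q ++ [z])) u v ∨ (u = z ∧ v = s)) →
      B u v := by
    intro u v h
    refine hC.2.2 u v ?_
    rw [arc_cons, e0, List.cons_append, parc_cons2, ← List.cons_append, parc_append, parc_cons2]
    simp only [List.cons_append]
    tauto
  rw [e] at hA ⊢
  exact fan_aux s z q x B hB hC.1 (arcs _ _ (by simp)) (arcs _ _ (by simp))
    (fun u v h => arcs u v (by simp [h])) (fun e h => hA (Or.inr (Or.inr h))) hs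

theorem IsDiCycle.rot {B : V → V → Prop} {l₁ l₂ : List V} {a : V}
    (h : IsDiCycle B (l₁ ++ a :: l₂)) : IsDiCycle B (a :: (l₂ ++ l₁)) := by
  refine ⟨?_, ?_, fun u v k => h.2.2 u v ((arc_rot ..).2 k)⟩
  · exact (List.perm_append_comm (l₁ := l₁) (l₂ := a :: l₂)).nodup_iff.1 h.1
  · have := h.2.1; simp at this ⊢; omega

theorem edges_rot (l₁ l₂ : List V) (a : V) : edges (l₁ ++ a :: l₂) = edges (a :: (l₂ ++ l₁)) := by
  simp only [edges, arc_rot]

theorem fan {A : Set (Sym2 V)} {B : V → V → Prop} (hB : IsTournament B) {s : V} {C : List V}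
    (hC : IsDiCycle B C) (hsC : s ∈ C) (hA : edges C ⊆ A) (hs : ∀ y ∈ C, s(s, y) ∈ A) :
    TR A B (edges C) := by
  obtain ⟨l₁, l₂, rfl⟩ := List.append_of_mem hsC
  rw [edges_rot] at hA ⊢
  exact fan_head hB hC.rot hA fun y hy => hs y (by simp at hy ⊢; tauto)

theorem wheel {A : Set (Sym2 V)} {B : V → V → Prop} (hB : IsTournament B) {s a b : V}
    {C : List V} (hC : IsDiCycle B C) (hsC : s ∉ C) (ha : a ∈ C) (hb : b ∈ C) (h1 : B s a)
    (h2 : B b s) (hA : edges C ⊆ A) (hs : ∀ y ∈ C, s(s, y) ∈ A) : TR A B (edges C) := by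
  have hab : b ≠ a := by rintro rfl; exact hB.asymm h1 h2
  obtain ⟨l₁, l₂, rfl⟩ := List.append_of_mem ha
  rw [edges_rot] at hA ⊢
  have hC' := hC.rot
  have hs' : ∀ y ∈ a :: (l₂ ++ l₁), s(s, y) ∈ A := fun y hy => hs y (by simp at hy ⊢; tauto)
  have hsC' : s ∉ a :: (l₂ ++ l₁) := fun hy => hsC (by simp at hy ⊢; tauto)
  have hb' : b ∈ l₂ ++ l₁ := by simp [hab] at hb ⊢; tauto
  generalize l₂ ++ l₁ = l at *
  obtain ⟨m₁, m₂, rfl⟩ := List.append_of_mem hb'
  have e0 : a :: (m₁ ++ b :: m₂ ++ [a]) = (a :: m₁) ++ b :: (m₂ ++ [a]) := by simp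
  have e : edges (a :: (m₁ ++ b :: m₂)) = pe (a :: (m₁ ++ [b])) ∪ pe (b :: (m₂ ++ [a])) := by
    rw [edges_cons, e0, pe_append]; rfl
  have arcs : ∀ u v, (parc (a :: (m₁ ++ [b])) u v ∨ parc (b :: (m₂ ++ [a])) u v) → B u v := by
    intro u v h
    refine hC'.2.2 u v ?_
    rw [arc_cons, e0, parc_append]
    exact h
  have hn := hC'.1
  have sub1 : ∀ y ∈ a :: (m₁ ++ [b]), y ∈ a :: (m₁ ++ b :: m₂) := by
    intro y hy; simp at hy ⊢; tauto
  have sub2 : ∀ y ∈ b :: (m₂ ++ [a]), y ∈ a :: (m₁ ++ b :: m₂) := by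
    intro y hy; simp at hy ⊢; tauto
  have n1 : (s :: a :: (m₁ ++ [b])).Nodup :=
    List.nodup_cons.2 ⟨fun h => hsC' (sub1 _ h), hn.sublist (by simp)⟩
  have n2 : (s :: b :: (m₂ ++ [a])).Nodup := by
    refine List.nodup_cons.2 ⟨fun h => hsC' (sub2 _ h), ?_⟩
    have : (a :: b :: m₂).Nodup := hn.sublist (by simp)
    exact (List.perm_append_comm (l₁ := [a]) (l₂ := b :: m₂)).nodup_iff.1 this
  have s1 : ∀ w, s(s, w) ∉ pe (a :: (m₁ ++ [b])) := fun w h => hsC' (sub1 _ (pe_mem h (by simp)))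
  have s2 : ∀ w, s(s, w) ∉ pe (b :: (m₂ ++ [a])) := fun w h => hsC' (sub2 _ (pe_mem h (by simp)))
  have dj : ∀ e, e ∈ pe (a :: (m₁ ++ [b])) → e ∉ pe (b :: (m₂ ++ [a])) := by
    rintro e ⟨u, v, h, rfl⟩ ⟨u', v', h', e'⟩
    have hd : ∀ y, y ∈ a :: m₁ → y ∉ b :: m₂ := by
      have : ((a :: m₁) ++ b :: m₂).Nodup := hn
      intro y k1 k2
      exact (List.nodup_append.1 this).2.2 y k1 y k2 rfl
    rcases Sym2.eq_iff.1 e' with ⟨rfl, rfl⟩ | ⟨rfl, rfl⟩
    · exact hd u (parc_init (l := a :: m₁) h) (parc_init (l := b :: m₂) h')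
    · exact hB.asymm (arcs _ _ (Or.inl h)) (arcs _ _ (Or.inr h'))
  rw [e] at hA ⊢
  have t1 := fan_aux (A := A) s b m₁ a B hB n1 h1 h2 (fun u v h => arcs u v (Or.inl h))
    (fun e h => hA (Or.inl h)) (fun y hy => hs' y (sub1 y hy))
  have t2 := fan_aux (A := A) s a m₂ b
    (flip B (insert s(s, a) (insert s(s, b) (pe (a :: (m₁ ++ [b])))))) (hB.flip _) n2
    (by rw [flip_of_mem (by simp)]; exact h2)
    (by rw [flip_of_mem (by rw [Sym2.eq_swap]; simp)]; exact h1)
    (by
      intro u v h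
      have hm : s(u, v) ∈ pe (b :: (m₂ ++ [a])) := ⟨u, v, h, rfl⟩
      rw [flip_of_not]; exact arcs u v (Or.inr h)
      rintro (k | k | k)
      · exact s2 _ (k ▸ hm)
      · exact s2 _ (k ▸ hm)
      · exact dj _ k hm)
    (fun e h => hA (Or.inr h)) (fun y hy => hs' y (sub2 y hy))
  convert t1.trans t2 using 1
  ext e
  simp only [Set.mem_symmDiff, Set.mem_insert_iff, Set.mem_union]
  by_cases e1 : e = s(s, a)
  · subst e1; simp [s1, s2]
  by_cases e2 : e = s(s, b)
  · subst e2; simp [s1, s2]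
  have := dj e
  simp only [e1, e2, false_or]
  tauto

theorem exists_simple_path {r : V → V → Prop} {x y : V} (h : Relation.ReflTransGen r x y) :
    ∃ l : List V, ∃ m : List V, x :: l = m ++ [y] ∧ (x :: l).Nodup ∧
      ∀ u v, parc (x :: l) u v → r u v := by
  induction h using Relation.ReflTransGen.head_induction_on with
  | refl => exact ⟨[], [], rfl, by simp, fun u v h => h.elim⟩
  | @head a c hac _ ih =>
    obtain ⟨l, m, e, hn, hr⟩ := ih
    by_cases ha : a ∈ c :: l
    · obtain ⟨l₁, l₂, e2⟩ := List.append_of_mem ha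
      rw [e2] at hn hr e
      have hne : a :: l₂ ≠ [] := by simp
      refine ⟨l₂, (a :: l₂).dropLast, ?_, hn.sublist (by simp), fun u v k => hr u v ?_⟩
      · have : (a :: l₂).getLast hne = y := by
          have h1 : (l₁ ++ a :: l₂).getLast (by simp) = (a :: l₂).getLast hne :=
            List.getLast_append_of_ne_nil _ hne
          rw [← h1]; simp only [e]; simp
        rw [← this, List.dropLast_append_getLast hne]
      · rw [parc_append]; exact Or.inr k
    · refine ⟨c :: l, a :: m, by rw [e]; rfl, List.nodup_cons.2 ⟨ha, hn⟩, ?_⟩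
      rintro u v (⟨rfl, rfl⟩ | k)
      · exact hac
      · exact hr u v k

theorem exists_ne_mem {B : V → V → Prop} {C : List V} (hC : IsDiCycle B C) (u : V) :
    ∃ c ∈ C, c ≠ u := by
  obtain ⟨hn, hl, -⟩ := hC
  match C, hn, hl with
  | a :: b :: _ :: _, hn, _ =>
    by_cases h : a = u
    · refine ⟨b, by simp, ?_⟩
      rintro rfl
      subst h
      simp at hn
    · exact ⟨a, by simp, h⟩

theorem helper_core {W : Set (Sym2 V)} {B : V → V → Prop} (hB : IsTournament B) {s a b : V}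
    {C p : List V} (hC : IsDiCycle B C) (hsC : s ∉ C) (hW : Disjoint W (edges C))
    (hG : IsDiCycle B (s :: p)) (hGW : edges (s :: p) ⊆ W) (ha : a ∈ C) (hb : b ∈ C)
    (h1 : flip B (edges (s :: p)) s a) (h2 : flip B (edges (s :: p)) b s) :
    TR (edges C ∪ (W ∪ {e | s ∈ e})) B (edges C) := by
  have t1 : TR (W ∪ {e | s ∈ e}) B (edges (s :: p)) :=
    fan_head hB hG (hGW.trans Set.subset_union_left) fun y _ => Or.inr (by simp)
  have hd : Disjoint (W ∪ {e | s ∈ e}) (edges C) :=
    Set.disjoint_union_left.2 ⟨hW, Set.disjoint_left.2 fun e he k => hsC (edges_mem k he)⟩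
  have t2 : TR (edges C ∪ (W ∪ {e | s ∈ e})) (flip B (edges (s :: p))) (edges C) :=
    wheel (hB.flip _) (hC.of_disjoint (hW.mono_left hGW).symm) hsC ha hb h1 h2
      Set.subset_union_left fun y _ => Or.inr (Or.inr (by simp))
  have t3 := ((t1.symm hB).disj hd).mono (Set.subset_union_right (s := edges C))
  have := (t1.mono Set.subset_union_right).trans (t2.trans t3)
  rwa [symmDiff_comm (edges C), ← symmDiff_assoc, symmDiff_self, bot_symmDiff] at this

theorem helper {W : Set (Sym2 V)} {B : V → V → Prop} (hB : IsTournament B) {s u : V}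
    {C : List V} (hC : IsDiCycle B C) (hsC : s ∉ C) (hu : u ∈ C) (hW : Disjoint W (edges C))
    (hus : s(u, s) ∈ W)
    (r1 : Relation.ReflTransGen (fun a b => B a b ∧ s(a, b) ∈ W) u s)
    (r2 : Relation.ReflTransGen (fun a b => B a b ∧ s(a, b) ∈ W) s u) :
    TR (edges C ∪ (W ∪ {e | s ∈ e})) B (edges C) := by
  have hne : ∀ c ∈ C, s ≠ c := fun c hc h => hsC (h ▸ hc)
  obtain ⟨c, hc, hcu⟩ := exists_ne_mem hC u
  by_cases hout : ∃ a ∈ C, B s a
  · by_cases hin : ∃ b ∈ C, B b s
    · obtain ⟨a, ha, h1⟩ := hout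
      obtain ⟨b, hb, h2⟩ := hin
      exact wheel hB hC hsC ha hb h1 h2 Set.subset_union_left
        fun y _ => Or.inr (Or.inr (by simp))
    · have hall : ∀ c ∈ C, B s c := fun c hc =>
        (hB.total (hne c hc)).resolve_right fun h => hin ⟨c, hc, h⟩
      obtain ⟨l, m, e, hn, hr⟩ := exists_simple_path r1
      obtain ⟨p, rfl⟩ : ∃ p, m = u :: p := by
        rcases m with _ | ⟨x, p⟩
        · exact (hne u hu (List.cons.inj e).1.symm).elim
        · exact ⟨p, by rw [(List.cons.inj e).1]⟩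
      rw [e] at hn hr
      have arcs : ∀ x y, Arc (s :: u :: p) x y ↔ (x = s ∧ y = u) ∨ parc (u :: p ++ [s]) x y := by
        intro x y; rw [arc_cons]; rfl
      have hn' : (s :: u :: p).Nodup :=
        (List.perm_append_comm (l₁ := u :: p) (l₂ := [s])).nodup_iff.1 hn
      have hG : IsDiCycle B (s :: u :: p) := by
        refine ⟨hn', ?_, fun x y k => ?_⟩
        · rcases p with _ | ⟨y, p⟩
          · exact (hB.asymm (hall u hu) (hr u s (Or.inl ⟨rfl, rfl⟩)).1).elim
          · simp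
        · rcases (arcs x y).1 k with ⟨rfl, rfl⟩ | k
          · exact hall _ hu
          · exact (hr x y k).1
      refine helper_core hB hC hsC hW hG ?_ hc hu ?_ ?_
      · rintro e ⟨x, y, k, rfl⟩
        rcases (arcs x y).1 k with ⟨rfl, rfl⟩ | k
        · rwa [Sym2.eq_swap]
        · exact (hr x y k).2
      · rw [flip_of_not]; exact hall c hc
        rw [mem_edges]
        rintro (k | k)
        · rcases (arcs _ _).1 k with ⟨-, k⟩ | k
          · exact hcu k
          · exact (List.nodup_cons.1 hn').1 (parc_init k)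
        · exact hB.asymm (hall c hc) (hG.2.2 _ _ k)
      · rw [flip_of_mem]; exact hall u hu
        exact mem_edges.2 (Or.inr ((arcs _ _).2 (Or.inl ⟨rfl, rfl⟩)))
  · have hall : ∀ c ∈ C, B c s := fun c hc =>
      (hB.total (hne c hc)).resolve_left fun h => hout ⟨c, hc, h⟩
    obtain ⟨l, m, e, hn, hr⟩ := exists_simple_path r2
    have arcs : ∀ x y, Arc (s :: l) x y ↔ parc (s :: l) x y ∨ (x = u ∧ y = s) := by
      intro x y
      rw [arc_cons, ← List.cons_append, e, List.append_assoc, List.singleton_append, parc_append,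
        parc_cons2]
      simp [parc_single]
    have hG : IsDiCycle B (s :: l) := by
      refine ⟨hn, ?_, fun x y k => ?_⟩
      · rcases m with _ | ⟨x, _ | ⟨y, m⟩⟩
        · exact (hne u hu (List.cons.inj e).1).elim
        · obtain ⟨rfl, rfl⟩ := List.cons.inj e
          exact (hB.asymm (hall u hu) (hr s u (Or.inl ⟨rfl, rfl⟩)).1).elim
        · rw [e]; simp
      · rcases (arcs x y).1 k with k | ⟨rfl, rfl⟩
        · exact (hr x y k).1
        · exact hall _ hu
    refine helper_core hB hC hsC hW hG ?_ hu hc ?_ ?_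
    · rintro e ⟨x, y, k, rfl⟩
      rcases (arcs x y).1 k with k | ⟨rfl, rfl⟩
      · exact (hr x y k).2
      · exact hus
    · rw [flip_of_mem]; exact hall u hu
      exact mem_edges.2 (Or.inr ((arcs _ _).2 (Or.inr ⟨rfl, rfl⟩)))
    · rw [flip_of_not]; exact hall c hc
      rw [mem_edges]
      rintro (k | k)
      · rcases (arcs _ _).1 k with k | ⟨k, -⟩
        · exact (List.nodup_cons.1 hn).1 (parc_tail k)
        · exact hcu k
      · exact hB.asymm (hall c hc) (hG.2.2 _ _ k)

end Pool.Agent.P.MP_b43b3b_co
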